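import Pool.Agent.PG50.Fin26

namespace Pool.Agent.PG50.AS26

open Filter Finset

theorem tend_log : Tendsto (fun x : ℕ => Real.log x) atTop atTop :=
  Real.tendsto_log_atTop.comp tendsto_natCast_atTop_atTop

/-- Chebyshev's lower bound -/
theorem pi_lower (x : ℕ) (hx100 : 100 ≤ x) :
    (x : ℝ) / (2 * Real.log x) ≤ (Nat.primeCounting x : ℝ) := by
  have hx100' : (100 : ℝ) ≤ x := by exact_mod_cast hx100
  have hlpos : 0 < Real.log x := Real.log_pos (by linarith)
  refine le_trans ?_ (Chebyshev.pi_ge x)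
  rw [div_le_div_iff₀ (by positivity) hlpos]
  have hln2 := Real.log_two_gt_d9
  have h1 : Real.log ((x : ℝ) + 1) ≤ 0.15 * x := by
    have h2 : Real.log (((x : ℝ) + 1) / 40) ≤ ((x : ℝ) + 1) / 40 - 1 :=
      Real.log_le_sub_one_of_pos (by positivity)
    rw [Real.log_div (by positivity) (by norm_num)] at h2
    have h3 : Real.log 40 ≤ 6 * 0.6931471808 := by
      calc Real.log 40 ≤ Real.log (2 ^ 6) := Real.log_le_log (by norm_num) (by norm_num)
        _ = 6 * Real.log 2 := by rw [Real.log_pow]; norm_num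
        _ ≤ _ := by have := Real.log_two_lt_d9; nlinarith
    norm_num at h3
    linarith
  have h5 : (x : ℝ) ≤ 2 * (x * Real.log 2 - Real.log (x + 1)) := by nlinarith
  nlinarith

/-- Chebyshev's upper bound on the naturals -/
theorem pi_upper : ∃ K : ℝ, 0 < K ∧ ∀ᶠ m : ℕ in atTop,
    (Nat.primeCounting m : ℝ) ≤ K * m / Real.log m := by
  refine ⟨Real.log 4 + 1, ?_, ?_⟩
  · have : 0 < Real.log 4 := Real.log_pos (by norm_num)
    linarith
  · have h := Chebyshev.eventually_primeCounting_le (ε := 1) one_pos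
    have h2 := tendsto_natCast_atTop_atTop (R := ℝ).eventually h
    filter_upwards [h2] with m hm
    rwa [Nat.floor_natCast] at hm

theorem sq_log_le (a : ℝ) (ha : 0 < a) : ∀ᶠ x : ℕ in atTop, Real.log x ^ 2 ≤ a * x := by
  have h := (Real.isLittleO_pow_log_id_atTop (n := 2)).bound ha
  have h2 := tendsto_natCast_atTop_atTop (R := ℝ).eventually h
  filter_upwards [h2] with x hx
  simpa using hx

theorem sqrt_le_pi : ∀ᶠ x : ℕ in atTop, Real.sqrt x ≤ (Nat.primeCounting x : ℝ) := by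
  filter_upwards [sq_log_le (1 / 4) (by norm_num), eventually_ge_atTop 100] with x h1 h2
  refine le_trans ?_ (pi_lower x h2)
  have hx : (100 : ℝ) ≤ x := by exact_mod_cast h2
  have hl : 0 < Real.log x := Real.log_pos (by linarith)
  rw [le_div_iff₀ (by positivity)]
  have h3 : 2 * Real.log x ≤ Real.sqrt x := by
    apply Real.le_sqrt_of_sq_le
    nlinarith
  calc Real.sqrt x * (2 * Real.log x) ≤ Real.sqrt x * Real.sqrt x :=
        mul_le_mul_of_nonneg_left h3 (Real.sqrt_nonneg _)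
    _ = x := Real.mul_self_sqrt (by linarith)

theorem pipi : ∃ C : ℝ, 0 < C ∧ ∀ᶠ X : ℕ in atTop,
    (Nat.primeCounting (Nat.primeCounting (2 * X)) : ℝ) ≤ C * X / Real.log X ^ 2 := by
  obtain ⟨K, hK, hup⟩ := pi_upper
  refine ⟨4 * K ^ 2, by positivity, ?_⟩
  have hpt : Tendsto (fun x : ℕ => Nat.primeCounting x) atTop atTop := by
    have : Tendsto (fun x : ℕ => Real.sqrt x) atTop atTop :=
      Real.tendsto_sqrt_atTop.comp tendsto_natCast_atTop_atTop
    exact tendsto_natCast_atTop_iff.1 (tendsto_atTop_mono' _ sqrt_le_pi this)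
  have h2X : Tendsto (fun x : ℕ => 2 * x) atTop atTop :=
    tendsto_atTop_mono (fun x => show x ≤ 2 * x by omega) tendsto_id
  filter_upwards [h2X.eventually hup, (hpt.comp h2X).eventually hup, h2X.eventually sqrt_le_pi,
    eventually_ge_atTop 100, sqrt_le_pi] with X a1 a2 a3 a4 a5
  have hx : (100 : ℝ) ≤ X := by exact_mod_cast a4
  have hl : 0 < Real.log X := Real.log_pos (by linarith)
  have hl2 : Real.log X ≤ Real.log ((2 * X : ℕ) : ℝ) :=
    Real.log_le_log (by linarith) (by push_cast; linarith)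
  have b1 : (Nat.primeCounting (2 * X) : ℝ) ≤ 2 * K * X / Real.log X := by
    refine a1.trans ?_
    push_cast
    push_cast at hl2
    calc K * (2 * (X : ℝ)) / Real.log (2 * X) ≤ K * (2 * (X : ℝ)) / Real.log X :=
          div_le_div_of_nonneg_left (by positivity) hl hl2
      _ = _ := by ring
  have b2 : Real.log X / 2 ≤ Real.log (Nat.primeCounting (2 * X)) := by
    have h1 : Real.sqrt X ≤ (Nat.primeCounting (2 * X) : ℝ) := by
      refine a5.trans ?_
      exact_mod_cast Nat.monotone_primeCounting (by omega)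
    have h2 : 0 < Real.sqrt X := Real.sqrt_pos.2 (by linarith)
    have h3 := Real.log_le_log h2 h1
    rwa [Real.log_sqrt (by linarith)] at h3
  simp only [Function.comp] at a2
  refine a2.trans ?_
  calc K * (Nat.primeCounting (2 * X) : ℝ) / Real.log (Nat.primeCounting (2 * X))
      ≤ K * (Nat.primeCounting (2 * X) : ℝ) / (Real.log X / 2) :=
        div_le_div_of_nonneg_left (by positivity) (by positivity) b2
    _ ≤ K * (2 * K * X / Real.log X) / (Real.log X / 2) := by
        apply div_le_div_of_nonneg_right _ (by positivity)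
        exact mul_le_mul_of_nonneg_left b1 hK.le
    _ = 4 * K ^ 2 * X / Real.log X ^ 2 := by
        field_simp
        ring

theorem as26 : PS → Main := by
  rintro ⟨C, hC, hPS⟩
  obtain ⟨C2, hC2, hpp⟩ := pipi
  obtain ⟨c1, hc1⟩ : ∃ c1 : ℝ, c1 = 1 / (16 * (C + 1)) := ⟨_, rfl⟩
  have hc1pos : 0 < c1 := by rw [hc1]; positivity
  have hc1le : c1 ≤ 1 / 16 := by
    rw [hc1]
    apply one_div_le_one_div_of_le (by norm_num)
    linarith
  have hc1C : c1 * C ≤ 1 / 16 := by
    rw [hc1, div_mul_eq_mul_div, div_le_div_iff₀ (by positivity) (by norm_num)]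
    nlinarith
  obtain ⟨c, hc⟩ : ∃ c : ℝ, c = min (c1 / 16) (c1 / (64 * C2)) := ⟨_, rfl⟩
  have hcpos : 0 < c := by rw [hc]; exact lt_min (by positivity) (by positivity)
  have hcle1 : c ≤ c1 / 16 := by rw [hc]; exact min_le_left _ _
  have hcle2 : c * C2 ≤ c1 / 64 := by
    have : c ≤ c1 / (64 * C2) := by rw [hc]; exact min_le_right _ _
    calc c * C2 ≤ c1 / (64 * C2) * C2 := mul_le_mul_of_nonneg_right this hC2.le
      _ = c1 / 64 := by field_simp
  refine ⟨c, hcpos, ?_⟩
  have hll : ∀ᶠ X : ℕ in atTop, Real.log (Real.log X) ^ 3 ≤ c1 / 2 * Real.log X := by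
    have h := (Real.isLittleO_pow_log_id_atTop (n := 3)).bound (show 0 < c1 / 2 by positivity)
    have h2 := tend_log.eventually h
    filter_upwards [h2, tend_log.eventually_ge_atTop 1] with x hx hx1
    have h3 : 0 ≤ Real.log (Real.log x) := Real.log_nonneg hx1
    simp only [id, Real.norm_eq_abs] at hx
    rw [abs_of_nonneg (by positivity), abs_of_nonneg (by linarith)] at hx
    exact hx
  filter_upwards [hPS, hpp, hll, sq_log_le (1 / 80) (by norm_num), eventually_ge_atTop 100,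
    tend_log.eventually_ge_atTop (Real.exp 1)] with X hps hpp' hl3 hsq hx100 hLe
  have hx : (100 : ℝ) ≤ X := by exact_mod_cast hx100
  set L := Real.log X with hL
  have hL1 : 1 ≤ L := le_trans (by have := Real.add_one_le_exp 1; linarith) hLe
  have hLpos : 0 < L := by linarith
  set l := Real.log L with hl
  have hl1 : 1 ≤ l := by
    rw [hl, Real.le_log_iff_exp_le hLpos]; exact hLe
  have hlpos : 0 < l := by linarith
  have hl3pos : 0 < l ^ 3 := by positivity
  have hl31 : 1 ≤ l ^ 3 := one_le_pow₀ hl1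
  obtain ⟨H, hH⟩ : ∃ H : ℕ, H = ⌊c1 * L / l ^ 3⌋₊ := ⟨_, rfl⟩
  obtain ⟨J, hJ⟩ : ∃ J : ℕ, J = ⌊c * L ^ 2 / l ^ 3⌋₊ := ⟨_, rfl⟩
  have hH1 : (H : ℝ) ≤ c1 * L / l ^ 3 := by rw [hH]; exact Nat.floor_le (by positivity)
  have hJ1 : (J : ℝ) ≤ c * L ^ 2 / l ^ 3 := by rw [hJ]; exact Nat.floor_le (by positivity)
  have hH2 : c1 * L / l ^ 3 / 2 ≤ (H : ℝ) := by
    have h1 : c1 * L / l ^ 3 < H + 1 := by rw [hH]; exact Nat.lt_floor_add_one _
    have h2 : 2 ≤ c1 * L / l ^ 3 := by
      rw [le_div_iff₀ hl3pos]; linarith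
    linarith
  have hHL : (H : ℝ) ≤ L := by
    refine hH1.trans ?_
    rw [div_le_iff₀ hl3pos]
    nlinarith
  have hLX : L ^ 2 ≤ X := by linarith
  have hL2 : L ≤ L ^ 2 := by nlinarith
  have hJL : (J : ℝ) ≤ X := by
    refine hJ1.trans (le_trans ?_ hLX)
    rw [div_le_iff₀ hl3pos]
    have : c ≤ 1 := by linarith
    have h0 : 0 ≤ L ^ 2 := by positivity
    nlinarith
  have hHX : H ≤ X := by
    have : (H : ℝ) ≤ X := by linarith
    exact_mod_cast this
  have hJX : J ≤ X := by exact_mod_cast hJL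
  have hF := fin_ineq X H J hHX
  have hF' : (H : ℝ) * Nat.primeCounting X ≤ 2 * ((good X J).card : ℝ) +
      2 * (J * (Nat.primeCounting (Nat.primeCounting (X + J)) : ℝ)) +
      2 * H * (∑ h ∈ Finset.Icc 1 H, (P2 X h : ℝ)) + H * (H + 4) := by
    exact_mod_cast hF
  have hpi := pi_lower X hx100
  have hsum : ∑ h ∈ Finset.Icc 1 H, (P2 X h : ℝ) ≤ X / (16 * L) := by
    calc ∑ h ∈ Finset.Icc 1 H, (P2 X h : ℝ) ≤ ∑ h ∈ Finset.Icc 1 H, C * X * l ^ 3 / L ^ 2 := by
          refine Finset.sum_le_sum (fun h hh => ?_)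
          have hh' := Finset.mem_Icc.1 hh
          exact hps h hh'.1 (le_trans (by exact_mod_cast hh'.2) hHL)
      _ = H * (C * X * l ^ 3 / L ^ 2) := by
          rw [Finset.sum_const, Nat.card_Icc, nsmul_eq_mul]; simp
      _ ≤ (c1 * L / l ^ 3) * (C * X * l ^ 3 / L ^ 2) :=
          mul_le_mul_of_nonneg_right hH1 (by positivity)
      _ = (c1 * C) * (X / L) := by field_simp
      _ ≤ 1 / 16 * (X / L) := mul_le_mul_of_nonneg_right hc1C (by positivity)
      _ = X / (16 * L) := by field_simp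
  have hpp2 : (Nat.primeCounting (Nat.primeCounting (X + J)) : ℝ) ≤ C2 * X / L ^ 2 := by
    refine le_trans ?_ hpp'
    exact_mod_cast Nat.monotone_primeCounting (Nat.monotone_primeCounting (by omega))
  have hJpp : (J : ℝ) * (Nat.primeCounting (Nat.primeCounting (X + J)) : ℝ) ≤
      c1 / 64 * (X / l ^ 3) := by
    calc (J : ℝ) * (Nat.primeCounting (Nat.primeCounting (X + J)) : ℝ)
        ≤ (c * L ^ 2 / l ^ 3) * (C2 * X / L ^ 2) :=
          mul_le_mul hJ1 hpp2 (by positivity) (by positivity)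
      _ = (c * C2) * (X / l ^ 3) := by field_simp
      _ ≤ c1 / 64 * (X / l ^ 3) := mul_le_mul_of_nonneg_right hcle2 (by positivity)
  have hH4 : (H : ℝ) + 4 ≤ X / (16 * L) := by
    rw [le_div_iff₀ (by positivity)]
    nlinarith
  have hmain : c1 / 16 * (X / l ^ 3) ≤ ((good X J).card : ℝ) := by
    have hHnn : (0 : ℝ) ≤ H := Nat.cast_nonneg _
    have e1 : (H : ℝ) * (X / (2 * L)) ≤ H * Nat.primeCounting X :=
      mul_le_mul_of_nonneg_left hpi hHnn
    have e2 : 2 * (H : ℝ) * (∑ h ∈ Finset.Icc 1 H, (P2 X h : ℝ)) ≤ 2 * H * (X / (16 * L)) :=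
      mul_le_mul_of_nonneg_left hsum (by positivity)
    have e3 : (H : ℝ) * (H + 4) ≤ H * (X / (16 * L)) := mul_le_mul_of_nonneg_left hH4 hHnn
    have e4 : (H : ℝ) * (X / (2 * L)) = 8 * (H * (X / (16 * L))) := by field_simp; ring
    have e5 : (5 : ℝ) * (H * (X / (16 * L))) ≤ 2 * ((good X J).card : ℝ) +
        2 * (c1 / 64 * (X / l ^ 3)) := by linarith
    have e6 : c1 / 32 * (X / l ^ 3) ≤ H * (X / (16 * L)) := by
      calc c1 / 32 * (X / l ^ 3) = (c1 * L / l ^ 3 / 2) * (X / (16 * L)) := by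
            field_simp; ring
        _ ≤ H * (X / (16 * L)) := mul_le_mul_of_nonneg_right hH2 (by positivity)
    have e7 : 0 ≤ c1 * (X / l ^ 3) := by positivity
    linarith
  calc c * X / l ^ 3 = c * (X / l ^ 3) := by ring
    _ ≤ c1 / 16 * (X / l ^ 3) := mul_le_mul_of_nonneg_right hcle1 (by positivity)
    _ ≤ ((good X J).card : ℝ) := hmain
    _ = _ := by rw [hJ]

end Pool.Agent.PG50.AS26
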