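import Pool.Agent.PG50.Fin2_26
import Pool.Agent.PG50.AS26

namespace Pool.Agent.PG50.AS26

open Filter Finset

theorem as2_26 : PS → Main2 := by
  rintro ⟨C, hC, hPS⟩
  obtain ⟨C2, hC2, hpp⟩ := pipi
  obtain ⟨c1, hc1⟩ : ∃ c1 : ℝ, c1 = 1 / (16 * (C + 1)) := ⟨_, rfl⟩
  have hc1pos : 0 < c1 := by rw [hc1]; positivity
  have hc1le : c1 ≤ 1 / 16 := by
    rw [hc1]
    apply one_div_le_one_div_of_le (by norm_num)
    linarith
  have hc1C : c1 * C ≤ 1 / 16 := by
    rw [hc1, div_mul_eq_mul_div, div_le_div_iff₀ (by positivity) (by norm_num)]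
    nlinarith
  obtain ⟨c, hc⟩ : ∃ c : ℝ, c = min (c1 / 32) (c1 / (64 * C2)) := ⟨_, rfl⟩
  have hcpos : 0 < c := by rw [hc]; exact lt_min (by positivity) (by positivity)
  have hcle1 : c ≤ c1 / 32 := by rw [hc]; exact min_le_left _ _
  have hcle2 : c * C2 ≤ c1 / 64 := by
    have : c ≤ c1 / (64 * C2) := by rw [hc]; exact min_le_right _ _
    calc c * C2 ≤ c1 / (64 * C2) * C2 := mul_le_mul_of_nonneg_right this hC2.le
      _ = c1 / 64 := by field_simp
  refine ⟨c, hcpos, ?_⟩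
  have hll : ∀ᶠ X : ℕ in atTop, Real.log (Real.log X) ^ 3 ≤ c1 / 2 * Real.log X := by
    have h := (Real.isLittleO_pow_log_id_atTop (n := 3)).bound (show 0 < c1 / 2 by positivity)
    have h2 := tend_log.eventually h
    filter_upwards [h2, tend_log.eventually_ge_atTop 1] with x hx hx1
    have h3 : 0 ≤ Real.log (Real.log x) := Real.log_nonneg hx1
    simp only [id, Real.norm_eq_abs] at hx
    rw [abs_of_nonneg (by positivity), abs_of_nonneg (by linarith)] at hx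
    exact hx
  filter_upwards [hPS, hpp, hll, sq_log_le (1 / 80) (by norm_num), eventually_ge_atTop 100,
    tend_log.eventually_ge_atTop (Real.exp 1)] with X hps hpp' hl3 hsq hx100 hLe
  have hx : (100 : ℝ) ≤ X := by exact_mod_cast hx100
  set L := Real.log X with hL
  have hL1 : 1 ≤ L := le_trans (by have := Real.add_one_le_exp 1; linarith) hLe
  have hLpos : 0 < L := by linarith
  set l := Real.log L with hl
  have hl1 : 1 ≤ l := by
    rw [hl, Real.le_log_iff_exp_le hLpos]; exact hLe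
  have hlpos : 0 < l := by linarith
  have hl3pos : 0 < l ^ 3 := by positivity
  have hl31 : 1 ≤ l ^ 3 := one_le_pow₀ hl1
  obtain ⟨H, hH⟩ : ∃ H : ℕ, H = ⌊c1 * L / l ^ 3⌋₊ := ⟨_, rfl⟩
  obtain ⟨J, hJ⟩ : ∃ J : ℕ, J = ⌊c * L ^ 2 / l ^ 3⌋₊ := ⟨_, rfl⟩
  obtain ⟨K, hK⟩ : ∃ K : ℕ, K = ⌊c * L / l ^ 3⌋₊ := ⟨_, rfl⟩
  have hK1 : (K : ℝ) ≤ c * L / l ^ 3 := by rw [hK]; exact Nat.floor_le (by positivity)
  have hK2 : (K : ℝ) ≤ c1 / 32 * (L / l ^ 3) := by
    refine hK1.trans ?_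
    calc c * L / l ^ 3 = c * (L / l ^ 3) := by ring
      _ ≤ _ := mul_le_mul_of_nonneg_right hcle1 (by positivity)
  have hH1 : (H : ℝ) ≤ c1 * L / l ^ 3 := by rw [hH]; exact Nat.floor_le (by positivity)
  have hJ1 : (J : ℝ) ≤ c * L ^ 2 / l ^ 3 := by rw [hJ]; exact Nat.floor_le (by positivity)
  have hH2 : c1 * L / l ^ 3 / 2 ≤ (H : ℝ) := by
    have h1 : c1 * L / l ^ 3 < H + 1 := by rw [hH]; exact Nat.lt_floor_add_one _
    have h2 : 2 ≤ c1 * L / l ^ 3 := by
      rw [le_div_iff₀ hl3pos]; linarith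
    linarith
  have hHL : (H : ℝ) ≤ L := by
    refine hH1.trans ?_
    rw [div_le_iff₀ hl3pos]
    nlinarith
  have hLX : L ^ 2 ≤ X := by linarith
  have hL2 : L ≤ L ^ 2 := by nlinarith
  have hJL : (J : ℝ) ≤ X := by
    refine hJ1.trans (le_trans ?_ hLX)
    rw [div_le_iff₀ hl3pos]
    have : c ≤ 1 := by linarith
    have h0 : 0 ≤ L ^ 2 := by positivity
    nlinarith
  have hHX : H ≤ X := by
    have : (H : ℝ) ≤ X := by linarith
    exact_mod_cast this
  have hJX : J ≤ X := by exact_mod_cast hJL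
  have hLl : 0 ≤ c1 * (L / l ^ 3) := by positivity
  have hHe : c1 * L / l ^ 3 / 2 = c1 * (L / l ^ 3) / 2 := by ring
  have hKH : K ≤ H := by
    have : (K : ℝ) ≤ H := by linarith
    exact_mod_cast this
  obtain ⟨W, hW⟩ : ∃ W : ℕ, W = H - K := ⟨_, rfl⟩
  have hWr : (W : ℝ) = H - K := by rw [hW, Nat.cast_sub hKH]
  have hW2 : 15 / 32 * (c1 * (L / l ^ 3)) ≤ W := by rw [hWr]; linarith
  have hF := fin_ineq2 X H K J hKH hHX
  rw [← hW] at hF
  have hF' : (W : ℝ) * Nat.primeCounting X ≤ 2 * ((good2 X K J).card : ℝ) +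
      2 * (J * (Nat.primeCounting (Nat.primeCounting (X + J)) : ℝ)) +
      2 * W * (∑ h ∈ Finset.Icc 1 H, (P2 X h : ℝ)) + W * (H + 4) := by
    exact_mod_cast hF
  have hpi := pi_lower X hx100
  have hsum : ∑ h ∈ Finset.Icc 1 H, (P2 X h : ℝ) ≤ X / (16 * L) := by
    calc ∑ h ∈ Finset.Icc 1 H, (P2 X h : ℝ) ≤ ∑ h ∈ Finset.Icc 1 H, C * X * l ^ 3 / L ^ 2 := by
          refine Finset.sum_le_sum (fun h hh => ?_)
          have hh' := Finset.mem_Icc.1 hh
          exact hps h hh'.1 (le_trans (by exact_mod_cast hh'.2) hHL)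
      _ = H * (C * X * l ^ 3 / L ^ 2) := by
          rw [Finset.sum_const, Nat.card_Icc, nsmul_eq_mul]; simp
      _ ≤ (c1 * L / l ^ 3) * (C * X * l ^ 3 / L ^ 2) :=
          mul_le_mul_of_nonneg_right hH1 (by positivity)
      _ = (c1 * C) * (X / L) := by field_simp
      _ ≤ 1 / 16 * (X / L) := mul_le_mul_of_nonneg_right hc1C (by positivity)
      _ = X / (16 * L) := by field_simp
  have hpp2 : (Nat.primeCounting (Nat.primeCounting (X + J)) : ℝ) ≤ C2 * X / L ^ 2 := by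
    refine le_trans ?_ hpp'
    exact_mod_cast Nat.monotone_primeCounting (Nat.monotone_primeCounting (by omega))
  have hJpp : (J : ℝ) * (Nat.primeCounting (Nat.primeCounting (X + J)) : ℝ) ≤
      c1 / 64 * (X / l ^ 3) := by
    calc (J : ℝ) * (Nat.primeCounting (Nat.primeCounting (X + J)) : ℝ)
        ≤ (c * L ^ 2 / l ^ 3) * (C2 * X / L ^ 2) :=
          mul_le_mul hJ1 hpp2 (by positivity) (by positivity)
      _ = (c * C2) * (X / l ^ 3) := by field_simp
      _ ≤ c1 / 64 * (X / l ^ 3) := mul_le_mul_of_nonneg_right hcle2 (by positivity)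
  have hH4 : (H : ℝ) + 4 ≤ X / (16 * L) := by
    rw [le_div_iff₀ (by positivity)]
    nlinarith
  have hmain : c1 / 32 * (X / l ^ 3) ≤ ((good2 X K J).card : ℝ) := by
    have hWnn : (0 : ℝ) ≤ W := Nat.cast_nonneg _
    have e1 : (W : ℝ) * (X / (2 * L)) ≤ W * Nat.primeCounting X :=
      mul_le_mul_of_nonneg_left hpi hWnn
    have e2 : 2 * (W : ℝ) * (∑ h ∈ Finset.Icc 1 H, (P2 X h : ℝ)) ≤ 2 * W * (X / (16 * L)) :=
      mul_le_mul_of_nonneg_left hsum (by positivity)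
    have e3 : (W : ℝ) * (H + 4) ≤ W * (X / (16 * L)) := mul_le_mul_of_nonneg_left hH4 hWnn
    have e4 : (W : ℝ) * (X / (2 * L)) = 8 * (W * (X / (16 * L))) := by field_simp; ring
    have e5 : (5 : ℝ) * (W * (X / (16 * L))) ≤ 2 * ((good2 X K J).card : ℝ) +
        2 * (c1 / 64 * (X / l ^ 3)) := by linarith
    have e6 : 15 / 512 * (c1 * (X / l ^ 3)) ≤ W * (X / (16 * L)) := by
      calc 15 / 512 * (c1 * (X / l ^ 3)) = 15 / 32 * (c1 * (L / l ^ 3)) * (X / (16 * L)) := by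
            field_simp; ring
        _ ≤ W * (X / (16 * L)) := mul_le_mul_of_nonneg_right hW2 (by positivity)
    have e7 : 0 ≤ c1 * (X / l ^ 3) := by positivity
    linarith
  calc c * X / l ^ 3 = c * (X / l ^ 3) := by ring
    _ ≤ c1 / 32 * (X / l ^ 3) := mul_le_mul_of_nonneg_right hcle1 (by positivity)
    _ ≤ ((good2 X K J).card : ℝ) := hmain
    _ = _ := by rw [hJ, hK]

end Pool.Agent.PG50.AS26
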