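import Pool.Agent.PG50.Defs

/-! # MP_28a32f_nt, row AS (helper64): from the pairs and the finite inequality to the theorem -/

set_option autoImplicit false

namespace Pool.Agent.PG50.As64

open Finset Filter

/-- the inequalities for large `X` -/
lemma evX (c : ℝ) (X₁ : ℕ) (Z : ℝ) : ∀ᶠ X : ℕ in atTop,
    X₁ ≤ X ∧ 3 ≤ X ∧ Z ≤ X ∧ 8 * Real.log X ^ 2 ≤ X ∧ 3 ≤ Real.log X ∧ c ≤ Real.log X ∧
    1 ≤ Real.log (Real.log X) ∧ 2 * Real.log (Real.log X) ^ 3 ≤ Real.log X := by
  have hc : Tendsto (fun X : ℕ => (X : ℝ)) atTop atTop := tendsto_natCast_atTop_atTop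
  have hlog : Tendsto (fun X : ℕ => Real.log (X : ℝ)) atTop atTop := Real.tendsto_log_atTop.comp hc
  have hll : Tendsto (fun X : ℕ => Real.log (Real.log (X : ℝ))) atTop atTop := Real.tendsto_log_atTop.comp hlog
  have h1 : ∀ᶠ x : ℝ in atTop, 8 * Real.log x ^ 2 ≤ x := by
    have h1 := (Asymptotics.isLittleO_iff.1 (Real.isLittleO_pow_log_id_atTop (n := 2)))
      (show (0 : ℝ) < 1 / 8 by norm_num)
    filter_upwards [h1, eventually_gt_atTop 0] with x hx h0
    rw [Real.norm_eq_abs, Real.norm_eq_abs, id, abs_of_pos h0] at hx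
    have := (le_abs_self _).trans hx
    linarith
  have h2 : ∀ᶠ x : ℝ in atTop, 2 * Real.log x ^ 3 ≤ x := by
    have h1 := (Asymptotics.isLittleO_iff.1 (Real.isLittleO_pow_log_id_atTop (n := 3)))
      (show (0 : ℝ) < 1 / 2 by norm_num)
    filter_upwards [h1, eventually_gt_atTop 0] with x hx h0
    rw [Real.norm_eq_abs, Real.norm_eq_abs, id, abs_of_pos h0] at hx
    have := (le_abs_self _).trans hx
    linarith
  filter_upwards [eventually_ge_atTop X₁, eventually_ge_atTop 3, hc.eventually_ge_atTop Z, hc.eventually h1,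
    hlog.eventually_ge_atTop 3, hlog.eventually_ge_atTop c, hll.eventually_ge_atTop 1, hlog.eventually h2]
    with X a1 a2 a3 a4 a5 a6 a7 a8
  exact ⟨a1, a2, a3, a4, a5, a6, a7, a8⟩

/-- Chebyshev's upper bound -/
lemma cheb : ∃ Z : ℝ, 2 ≤ Z ∧ ∀ x : ℝ, Z ≤ x → (Nat.primeCounting ⌊x⌋₊ : ℝ) ≤ 2 * x / Real.log x := by
  have h4 : Real.log 4 < 2 := by
    have h1 : Real.log 4 = 2 * Real.log 2 := by
      rw [show (4 : ℝ) = 2 ^ 2 by norm_num, Real.log_pow]
      push_cast
      ring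
    have := Real.log_two_lt_d9
    linarith
  obtain ⟨Z, hZ⟩ := eventually_atTop.1 (Chebyshev.eventually_primeCounting_le (ε := 2 - Real.log 4) (by linarith))
  refine ⟨max Z 2, le_max_right _ _, fun x hx => ?_⟩
  have h1 := hZ x ((le_max_left _ _).trans hx)
  have h2 : Real.log 4 + (2 - Real.log 4) = 2 := by ring
  rw [h2] at h1
  exact h1

theorem as64 (hPS : PS) (hCO : CO) : Main := by
  classical
  obtain ⟨C, hC, hPS⟩ := hPS
  obtain ⟨X₁, hX₁⟩ := eventually_atTop.1 hPS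
  obtain ⟨Z, hZ2, hZ⟩ := cheb
  obtain ⟨κ, hκ⟩ : ∃ κ : ℝ, κ = 1 / (16 * (4 + 32 * C)) := ⟨_, rfl⟩
  have hκ0 : 0 < κ := by rw [hκ]; positivity
  have hκ1 : κ ≤ 1 := by
    rw [hκ, div_le_one (by positivity)]
    linarith
  obtain ⟨c, hc⟩ : ∃ c : ℝ, c = κ / 66 := ⟨_, rfl⟩
  have hc0 : 0 < c := by rw [hc]; positivity
  have hc1 : c ≤ 1 := by rw [hc]; linarith
  refine ⟨c, hc0, ?_⟩
  filter_upwards [evX (1 / c) X₁ (Z ^ 2)] with X hX
  obtain ⟨a1, a2, a3, a4, a5, a6, a7, a8⟩ := hX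
  obtain ⟨L, hL⟩ : ∃ L : ℝ, L = Real.log X := ⟨_, rfl⟩
  obtain ⟨l, hl⟩ : ∃ l : ℝ, l = Real.log L := ⟨_, rfl⟩
  rw [← hL, ← hl] at a7 a8
  rw [← hL] at a4 a5 a6
  rw [← hL, ← hl]
  have hXr : (3 : ℝ) ≤ X := by exact_mod_cast a2
  have hX0 : (0 : ℝ) < X := by linarith
  have hL0 : 0 < L := by linarith
  have hl0 : 0 < l := by linarith
  have hl3 : 0 < l ^ 3 := by positivity
  have hl31 : 1 ≤ l ^ 3 := one_le_pow₀ a7
  have hLc : 1 ≤ c * L := by
    rw [div_le_iff₀ hc0] at a6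
    linarith
  -- H and J
  obtain ⟨H, hH⟩ : ∃ H : ℕ, H = ⌊L / l ^ 3⌋₊ := ⟨_, rfl⟩
  obtain ⟨J, hJ⟩ : ∃ J : ℕ, J = ⌊c * L ^ 2 / l ^ 3⌋₊ := ⟨_, rfl⟩
  have hHle : (H : ℝ) ≤ L / l ^ 3 := by rw [hH]; exact Nat.floor_le (by positivity)
  have hJle : (J : ℝ) ≤ c * L ^ 2 / l ^ 3 := by rw [hJ]; exact Nat.floor_le (by positivity)
  have h2 : 2 ≤ L / l ^ 3 := by
    rw [le_div_iff₀ hl3]
    exact a8
  have hHge : L / l ^ 3 / 2 ≤ H := by
    have h3 : L / l ^ 3 < H + 1 := by rw [hH]; exact Nat.lt_floor_add_one _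
    linarith
  have hH1 : 1 ≤ H := by
    have h3 : (1 : ℝ) ≤ H := by linarith
    exact_mod_cast h3
  have hHL : (H : ℝ) ≤ L := hHle.trans (div_le_self hL0.le hl31)
  have hJL : (J : ℝ) ≤ L ^ 2 := by
    refine hJle.trans ((div_le_self (by positivity) hl31).trans ?_)
    have : 0 ≤ L ^ 2 := by positivity
    nlinarith
  have hHJX : (H : ℝ) + J ≤ X := by
    have h3 : L ≤ L ^ 2 := by nlinarith
    linarith
  have hH0 : (0 : ℝ) ≤ H := Nat.cast_nonneg H
  have hJ0 : (0 : ℝ) ≤ J := Nat.cast_nonneg J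
  -- the monotone facts
  have hmono : Monotone Nat.primeCounting := Nat.monotone_primeCounting
  have hX2 : ∀ Y : ℕ, X ≤ Y → (Y : ℝ) ≤ 2 * X → (Nat.primeCounting Y : ℝ) ≤ 4 * X / L := by
    intro Y hY1 hY2
    have hYr : (X : ℝ) ≤ Y := by exact_mod_cast hY1
    have h3 := hZ (Y : ℝ) (by nlinarith)
    rw [Nat.floor_natCast] at h3
    have h4 : L ≤ Real.log Y := by rw [hL]; exact Real.log_le_log hX0 hYr
    refine h3.trans ?_
    calc 2 * (Y : ℝ) / Real.log Y ≤ 2 * (2 * X) / L := by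
          apply div_le_div₀ (by positivity) (by linarith) hL0 h4
      _ = 4 * X / L := by ring
  have hsqrt : Real.sqrt X ≤ 4 * X / L := by
    rw [le_div_iff₀ hL0]
    have h3 : L ≤ Real.sqrt X := by
      apply Real.le_sqrt_of_sq_le
      have : 0 ≤ L ^ 2 := by positivity
      linarith
    have h4 : Real.sqrt X * Real.sqrt X = X := Real.mul_self_sqrt hX0.le
    have h5 : 0 ≤ Real.sqrt X := Real.sqrt_nonneg _
    calc Real.sqrt X * L ≤ Real.sqrt X * Real.sqrt X := mul_le_mul_of_nonneg_left h3 h5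
      _ = X := h4
      _ ≤ 4 * X := by linarith
  have hPP : (Nat.primeCounting (Nat.primeCounting (X + H + J)) : ℝ) ≤ 16 * X / L ^ 2 := by
    have h3 := hX2 (X + H + J) (by omega) (by push_cast; linarith)
    have h4 : Nat.primeCounting (X + H + J) ≤ ⌊4 * (X : ℝ) / L⌋₊ := Nat.le_floor h3
    have h5 : (Nat.primeCounting (Nat.primeCounting (X + H + J)) : ℝ) ≤ Nat.primeCounting ⌊4 * (X : ℝ) / L⌋₊ := by
      exact_mod_cast hmono h4
    have h6 : Z ≤ Real.sqrt X := Real.le_sqrt_of_sq_le a3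
    have h7 := hZ (4 * (X : ℝ) / L) (h6.trans hsqrt)
    have h8 : L / 2 ≤ Real.log (4 * (X : ℝ) / L) := by
      have h9 := Real.log_le_log (by linarith : 0 < Real.sqrt X) hsqrt
      rw [Real.log_sqrt hX0.le, ← hL] at h9
      exact h9
    refine h5.trans (h7.trans ?_)
    calc 2 * (4 * (X : ℝ) / L) / Real.log (4 * (X : ℝ) / L) ≤ 2 * (4 * (X : ℝ) / L) / (L / 2) := by
          apply div_le_div_of_nonneg_left (by positivity) (by positivity) h8
      _ = 16 * X / L ^ 2 := by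
          field_simp
          ring
  -- the pairs
  have hpair : ∀ h ∈ Icc 1 H, (P2 (X + H) h : ℝ) ≤ 16 * C * X * l ^ 3 / L ^ 2 := by
    intro h hh
    rw [mem_Icc] at hh
    have hXH : (X : ℝ) ≤ ((X + H : ℕ) : ℝ) := by push_cast; linarith
    have hXH2 : ((X + H : ℕ) : ℝ) ≤ 2 * X := by push_cast; linarith
    have h3 : L ≤ Real.log ((X + H : ℕ) : ℝ) := by rw [hL]; exact Real.log_le_log hX0 hXH
    have h4 : (h : ℝ) ≤ H := by exact_mod_cast hh.2
    have h5 := hX₁ (X + H) (by omega) h hh.1 (by linarith)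
    have h6 : Real.log ((X + H : ℕ) : ℝ) ≤ L ^ 2 := by
      have h7 : Real.log ((X + H : ℕ) : ℝ) ≤ Real.log (2 * X) := Real.log_le_log (by linarith) hXH2
      rw [Real.log_mul (by norm_num) hX0.ne', ← hL] at h7
      have h8 := Real.log_two_lt_d9
      nlinarith
    have h7 : Real.log (Real.log ((X + H : ℕ) : ℝ)) ≤ 2 * l := by
      have h8 := Real.log_le_log (by linarith) h6
      rw [Real.log_pow, ← hl] at h8
      push_cast at h8
      push_cast
      linarith
    have h8 : 0 ≤ Real.log (Real.log ((X + H : ℕ) : ℝ)) := Real.log_nonneg (by linarith)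
    refine h5.trans ?_
    calc C * ((X + H : ℕ) : ℝ) * Real.log (Real.log ((X + H : ℕ) : ℝ)) ^ 3 / Real.log ((X + H : ℕ) : ℝ) ^ 2 ≤
          C * (2 * X) * (2 * l) ^ 3 / L ^ 2 := by
          apply div_le_div₀ (by positivity) _ (by positivity) (pow_le_pow_left₀ hL0.le h3 2)
          gcongr
      _ = 16 * C * X * l ^ 3 / L ^ 2 := by ring
  have hsum : (∑ h ∈ Icc 1 H, (P2 (X + H) h : ℝ)) ≤ 16 * C * X / L := by
    calc (∑ h ∈ Icc 1 H, (P2 (X + H) h : ℝ)) ≤ ∑ _h ∈ Icc 1 H, 16 * C * X * l ^ 3 / L ^ 2 := sum_le_sum hpair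
      _ = H * (16 * C * X * l ^ 3 / L ^ 2) := by
          rw [sum_const, nsmul_eq_mul, Nat.card_Icc, Nat.add_sub_cancel]
      _ ≤ (L / l ^ 3) * (16 * C * X * l ^ 3 / L ^ 2) := by gcongr
      _ = 16 * C * X / L := by field_simp
  have hD : (((H * Nat.primeCounting (X + H) + 2 * H * ∑ h ∈ Icc 1 H, P2 (X + H) h : ℕ)) : ℝ) ≤
      (4 + 32 * C) * (H * X / L) := by
    push_cast
    have h3 := hX2 (X + H) (by omega) (by push_cast; linarith)
    calc (H : ℝ) * Nat.primeCounting (X + H) + 2 * H * ∑ h ∈ Icc 1 H, (P2 (X + H) h : ℝ) ≤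
          H * (4 * X / L) + 2 * H * (16 * C * X / L) := by gcongr
      _ = (4 + 32 * C) * (H * X / L) := by ring
  -- the main term
  have hmain : (H : ℝ) * X / (4 * L) ≤ ((H * (Nat.primeCounting X - Nat.primeCounting H) : ℕ) : ℝ) := by
    have h3 := Chebyshev.pi_ge X
    rw [← hL] at h3
    have h4 : (X : ℝ) / (2 * L) ≤ (X * Real.log 2 - Real.log (X + 1)) / L := by
      rw [div_le_div_iff₀ (by positivity) hL0]
      have h5 : Real.log ((X : ℝ) + 1) ≤ X / 8 := by
        have h6 : Real.log ((X : ℝ) + 1) ≤ Real.log (2 * X) := Real.log_le_log (by linarith) (by linarith)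
        rw [Real.log_mul (by norm_num) hX0.ne', ← hL] at h6
        have h8 := Real.log_two_lt_d9
        have h9 : L + 1 ≤ L ^ 2 := by nlinarith
        linarith
      have h6 := Real.log_two_gt_d9
      have h7 : (X : ℝ) * 0.69 ≤ X * Real.log 2 := by
        apply mul_le_mul_of_nonneg_left _ hX0.le
        linarith
      have h8 : (X : ℝ) * L ≤ (X * Real.log 2 - Real.log (X + 1)) * (2 * L) := by
        have h9 : (X : ℝ) ≤ (X * Real.log 2 - Real.log (X + 1)) * 2 := by linarith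
        have h10 := mul_le_mul_of_nonneg_right h9 hL0.le
        linarith
      exact h8
    have h5 : (Nat.primeCounting H : ℝ) ≤ X / (4 * L) := by
      have h6 : Nat.primeCounting H ≤ H + 1 := by
        rw [Nat.primeCounting, Nat.primeCounting']
        exact Nat.count_le _
      have h7 : (Nat.primeCounting H : ℝ) ≤ 2 * L := by
        have : (Nat.primeCounting H : ℝ) ≤ H + 1 := by exact_mod_cast h6
        linarith
      refine h7.trans ?_
      rw [le_div_iff₀ (by positivity)]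
      nlinarith
    have h6 : (Nat.primeCounting X : ℝ) - Nat.primeCounting H ≤
        ((Nat.primeCounting X - Nat.primeCounting H : ℕ) : ℝ) := by
      have h7 : Nat.primeCounting X ≤ (Nat.primeCounting X - Nat.primeCounting H) + Nat.primeCounting H := by omega
      have h8 : (Nat.primeCounting X : ℝ) ≤
          ((Nat.primeCounting X - Nat.primeCounting H : ℕ) : ℝ) + Nat.primeCounting H := by exact_mod_cast h7
      linarith
    have h7 : (X : ℝ) / (4 * L) ≤ ((Nat.primeCounting X - Nat.primeCounting H : ℕ) : ℝ) := by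
      have h8 : (X : ℝ) / (2 * L) = X / (4 * L) + X / (4 * L) := by
        field_simp
        norm_num
      linarith
    push_cast [Nat.cast_mul]
    calc (H : ℝ) * X / (4 * L) = H * (X / (4 * L)) := by ring
      _ ≤ H * ((Nat.primeCounting X - Nat.primeCounting H : ℕ) : ℝ) := mul_le_mul_of_nonneg_left h7 hH0
  -- the inequality
  have hco := hCO X H J hH1
  obtain ⟨G, hG⟩ : ∃ G : ℕ, G = (good X J).card := ⟨_, rfl⟩
  rw [← hG] at hco
  have hco' : ((H * (Nat.primeCounting X - Nat.primeCounting H) : ℕ) : ℝ) ^ 2 ≤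
      ((G : ℝ) + (H + J) * Nat.primeCounting (Nat.primeCounting (X + H + J))) *
      ((H * Nat.primeCounting (X + H) + 2 * H * ∑ h ∈ Icc 1 H, P2 (X + H) h : ℕ) : ℝ) := by
    exact_mod_cast hco
  have hW : ((H : ℝ) + J) * Nat.primeCounting (Nat.primeCounting (X + H + J)) ≤ 32 * c * (X / l ^ 3) := by
    calc ((H : ℝ) + J) * Nat.primeCounting (Nat.primeCounting (X + H + J)) ≤
          (L / l ^ 3 + c * L ^ 2 / l ^ 3) * (16 * X / L ^ 2) := by gcongr
      _ = 16 * (1 / L + c) * (X / l ^ 3) := by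
          field_simp
      _ ≤ 16 * (c + c) * (X / l ^ 3) := by
          have h3 : 1 / L ≤ c := by
            rw [div_le_iff₀ hL0]
            exact hLc
          gcongr
      _ = 32 * c * (X / l ^ 3) := by ring
  have hHX : 0 < (H : ℝ) * X / L := by
    have : (0 : ℝ) < H := by exact_mod_cast hH1
    positivity
  have hG0 : (0 : ℝ) ≤ G := Nat.cast_nonneg G
  have hkey : κ * (H * X / L) ≤ G + 32 * c * (X / l ^ 3) := by
    have h3 : ((H : ℝ) * X / (4 * L)) ^ 2 ≤ (G + 32 * c * (X / l ^ 3)) * ((4 + 32 * C) * (H * X / L)) := by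
      calc ((H : ℝ) * X / (4 * L)) ^ 2 ≤ ((H * (Nat.primeCounting X - Nat.primeCounting H) : ℕ) : ℝ) ^ 2 :=
            pow_le_pow_left₀ (by positivity) hmain 2
        _ ≤ _ := hco'
        _ ≤ (G + 32 * c * (X / l ^ 3)) * ((4 + 32 * C) * (H * X / L)) := by
            apply mul_le_mul _ hD (Nat.cast_nonneg _) (by positivity)
            linarith
    have h4 : ((H : ℝ) * X / (4 * L)) ^ 2 = (κ * (H * X / L)) * ((4 + 32 * C) * (H * X / L)) := by
      rw [hκ]
      field_simp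
      norm_num
    rw [h4] at h3
    exact le_of_mul_le_mul_right h3 (by positivity)
  have hfin : c * X / l ^ 3 ≤ G := by
    have h3 : κ * (X / (2 * l ^ 3)) ≤ κ * (H * X / L) := by
      apply mul_le_mul_of_nonneg_left _ hκ0.le
      calc (X : ℝ) / (2 * l ^ 3) = (L / l ^ 3 / 2) * X / L := by field_simp
        _ ≤ H * X / L := by gcongr
    have h4 : κ * (X / (2 * l ^ 3)) = 33 * c * (X / l ^ 3) := by
      rw [hc]
      field_simp
      norm_num
    have h5 : c * X / l ^ 3 = c * (X / l ^ 3) := by ring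
    rw [h5]
    linarith
  rw [← hJ, ← hG]
  exact hfin

end Pool.Agent.PG50.As64
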