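import Pool.Agent.PG50.Defs2
import Pool.Agent.PG50.As64

/-! # MP_28a32f_nt, row AS2: from the pairs and the second finite inequality to the stronger theorem -/

set_option autoImplicit false

namespace Pool.Agent.PG50.AS54

open Finset Filter Pool.Agent.PG50.As64

lemma evD (D : ℝ) (hD : 0 < D) : ∀ᶠ X : ℕ in atTop, D * Real.log (Real.log X) ^ 3 ≤ Real.log X := by
  have hc : Tendsto (fun X : ℕ => (X : ℝ)) atTop atTop := tendsto_natCast_atTop_atTop
  have hlog : Tendsto (fun X : ℕ => Real.log (X : ℝ)) atTop atTop := Real.tendsto_log_atTop.comp hc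
  have h2 : ∀ᶠ x : ℝ in atTop, D * Real.log x ^ 3 ≤ x := by
    have h1 := (Asymptotics.isLittleO_iff.1 (Real.isLittleO_pow_log_id_atTop (n := 3)))
      (show (0 : ℝ) < 1 / D by positivity)
    filter_upwards [h1, eventually_gt_atTop 0] with x hx h0
    rw [Real.norm_eq_abs, Real.norm_eq_abs, id, abs_of_pos h0] at hx
    have h3 := (le_abs_self _).trans hx
    calc D * Real.log x ^ 3 ≤ D * (1 / D * x) := by gcongr
      _ = x := by field_simp
  exact hlog.eventually h2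

theorem as2 (hPS : PS) (hCO : CO2) : Main2 := by
  classical
  obtain ⟨C, hC, hPS⟩ := hPS
  obtain ⟨X₁, hX₁⟩ := eventually_atTop.1 hPS
  obtain ⟨Z, hZ2, hZ⟩ := cheb
  obtain ⟨a, ha⟩ : ∃ a : ℝ, a = 1 / (256 * (C + 1)) := ⟨_, rfl⟩
  have ha0 : 0 < a := by rw [ha]; positivity
  have ha1 : a ≤ 1 := by
    rw [ha, div_le_one (by positivity)]
    linarith
  have hCa : C * a ≤ 1 / 256 := by
    rw [ha, mul_one_div, div_le_div_iff₀ (by positivity) (by norm_num)]
    linarith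
  obtain ⟨c, hc⟩ : ∃ c : ℝ, c = a / 600 := ⟨_, rfl⟩
  have hc0 : 0 < c := by rw [hc]; positivity
  have hc1 : c ≤ 1 := by rw [hc]; linarith
  refine ⟨c, hc0, ?_⟩
  filter_upwards [evX 16 (2 * X₁) (Z ^ 2), evD (2 / a) (by positivity)] with Y hY a9
  obtain ⟨a1, a2, a3, a4, a5, a6, a7, a8⟩ := hY
  obtain ⟨L, hL⟩ : ∃ L : ℝ, L = Real.log Y := ⟨_, rfl⟩
  obtain ⟨l, hl⟩ : ∃ l : ℝ, l = Real.log L := ⟨_, rfl⟩
  rw [← hL, ← hl] at a7 a8 a9
  rw [← hL] at a4 a5 a6
  rw [← hL, ← hl]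
  have hYr : (3 : ℝ) ≤ Y := by exact_mod_cast a2
  have hY0 : (0 : ℝ) < Y := by linarith
  have hL0 : 0 < L := by linarith
  have hl0 : 0 < l := by linarith
  have hl3 : 0 < l ^ 3 := by positivity
  have hl31 : 1 ≤ l ^ 3 := one_le_pow₀ a7
  have hLY : 128 * L ≤ Y := by nlinarith
  -- H, K and J
  obtain ⟨H, hH⟩ : ∃ H : ℕ, H = ⌊a * L / l ^ 3⌋₊ := ⟨_, rfl⟩
  obtain ⟨K, hK⟩ : ∃ K : ℕ, K = ⌊c * L / l ^ 3⌋₊ := ⟨_, rfl⟩
  obtain ⟨J, hJ⟩ : ∃ J : ℕ, J = ⌊c * L ^ 2 / l ^ 3⌋₊ := ⟨_, rfl⟩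
  have hHle : (H : ℝ) ≤ a * L / l ^ 3 := by rw [hH]; exact Nat.floor_le (by positivity)
  have hKle : (K : ℝ) ≤ c * L / l ^ 3 := by rw [hK]; exact Nat.floor_le (by positivity)
  have hJle : (J : ℝ) ≤ c * L ^ 2 / l ^ 3 := by rw [hJ]; exact Nat.floor_le (by positivity)
  have h2 : 2 ≤ a * L / l ^ 3 := by
    rw [le_div_iff₀ hl3]
    rw [div_mul_eq_mul_div, div_le_iff₀ ha0] at a9
    linarith
  have hHge : a * L / l ^ 3 / 2 ≤ H := by
    have h3 : a * L / l ^ 3 < H + 1 := by rw [hH]; exact Nat.lt_floor_add_one _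
    linarith
  have hKH2 : (K : ℝ) ≤ H / 2 := by
    have h3 : c * L / l ^ 3 = (a * L / l ^ 3) / 600 := by rw [hc]; ring
    rw [h3] at hKle
    linarith
  have hKH : K ≤ H := by
    have h3 : (K : ℝ) ≤ H := by
      have : (0 : ℝ) ≤ H := Nat.cast_nonneg H
      linarith
    exact_mod_cast h3
  have hHL : (H : ℝ) ≤ L := by
    refine hHle.trans ((div_le_self (by positivity) hl31).trans ?_)
    calc a * L ≤ 1 * L := by gcongr
      _ = L := one_mul L
  have hHY : H ≤ Y := by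
    have h3 : (H : ℝ) ≤ Y := by linarith
    exact_mod_cast h3
  have hJL : (J : ℝ) ≤ L ^ 2 := by
    refine hJle.trans ((div_le_self (by positivity) hl31).trans ?_)
    calc c * L ^ 2 ≤ 1 * L ^ 2 := by gcongr
      _ = L ^ 2 := one_mul _
  have hH0 : (0 : ℝ) ≤ H := Nat.cast_nonneg H
  have hK0 : (0 : ℝ) ≤ K := Nat.cast_nonneg K
  have hJ0 : (0 : ℝ) ≤ J := Nat.cast_nonneg J
  obtain ⟨X, hX⟩ : ∃ X : ℕ, X = Y - H := ⟨_, rfl⟩
  have hXH : X + H = Y := by omega
  have hXr : (X : ℝ) + H = Y := by exact_mod_cast hXH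
  have hXge : (Y : ℝ) * (127 / 128) ≤ X := by linarith
  have hX0 : (0 : ℝ) < X := by nlinarith
  have hX1 : (2 : ℝ) < X := by linarith
  have hX₁X : X₁ ≤ X := by
    have h3 : (2 * X₁ : ℝ) ≤ Y := by exact_mod_cast a1
    have h4 : (X₁ : ℝ) ≤ X := by linarith
    exact_mod_cast h4
  have hlogX : Real.log X ≤ L := by
    rw [hL]
    exact Real.log_le_log hX0 (by linarith)
  have hlogX0 : 0 < Real.log X := Real.log_pos (by linarith)
  have hlogX2 : L / 2 ≤ Real.log X := by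
    have h3 : Real.log (Y / 2) ≤ Real.log X := Real.log_le_log (by positivity) (by linarith)
    rw [Real.log_div hY0.ne' (by norm_num), ← hL] at h3
    have := Real.log_two_lt_d9
    linarith
  -- the monotone facts
  have hmono : Monotone Nat.primeCounting := Nat.monotone_primeCounting
  have hsqrt : Real.sqrt Y ≤ 4 * Y / L := by
    rw [le_div_iff₀ hL0]
    have h3 : L ≤ Real.sqrt Y := by
      apply Real.le_sqrt_of_sq_le
      have : 0 ≤ L ^ 2 := by positivity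
      linarith
    have h4 : Real.sqrt Y * Real.sqrt Y = Y := Real.mul_self_sqrt hY0.le
    have h5 : 0 ≤ Real.sqrt Y := Real.sqrt_nonneg _
    calc Real.sqrt Y * L ≤ Real.sqrt Y * Real.sqrt Y := mul_le_mul_of_nonneg_left h3 h5
      _ = Y := h4
      _ ≤ 4 * Y := by linarith
  have hPP : (Nat.primeCounting (Nat.primeCounting (X + H + J)) : ℝ) ≤ 16 * Y / L ^ 2 := by
    have hYJ : ((X + H + J : ℕ) : ℝ) ≤ 2 * Y := by
      rw [hXH]
      push_cast
      have : 0 ≤ L ^ 2 := by positivity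
      linarith
    have hYJ1 : (Y : ℝ) ≤ ((X + H + J : ℕ) : ℝ) := by
      rw [hXH]
      push_cast
      linarith
    have h3 : (Nat.primeCounting (X + H + J) : ℝ) ≤ 4 * Y / L := by
      have h3 := hZ ((X + H + J : ℕ) : ℝ) (by nlinarith)
      rw [Nat.floor_natCast] at h3
      have h4 : L ≤ Real.log ((X + H + J : ℕ) : ℝ) := by rw [hL]; exact Real.log_le_log hY0 hYJ1
      refine h3.trans ?_
      calc 2 * ((X + H + J : ℕ) : ℝ) / Real.log ((X + H + J : ℕ) : ℝ) ≤ 2 * (2 * Y) / L := by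
            apply div_le_div₀ (by positivity) (by linarith) hL0 h4
        _ = 4 * Y / L := by ring
    have h4 : Nat.primeCounting (X + H + J) ≤ ⌊4 * (Y : ℝ) / L⌋₊ := Nat.le_floor h3
    have h5 : (Nat.primeCounting (Nat.primeCounting (X + H + J)) : ℝ) ≤ Nat.primeCounting ⌊4 * (Y : ℝ) / L⌋₊ := by
      exact_mod_cast hmono h4
    have h6 : Z ≤ Real.sqrt Y := Real.le_sqrt_of_sq_le a3
    have h7 := hZ (4 * (Y : ℝ) / L) (h6.trans hsqrt)
    have h8 : L / 2 ≤ Real.log (4 * (Y : ℝ) / L) := by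
      have h9 := Real.log_le_log (by linarith : 0 < Real.sqrt Y) hsqrt
      rw [Real.log_sqrt hY0.le, ← hL] at h9
      exact h9
    refine h5.trans (h7.trans ?_)
    calc 2 * (4 * (Y : ℝ) / L) / Real.log (4 * (Y : ℝ) / L) ≤ 2 * (4 * (Y : ℝ) / L) / (L / 2) := by
          apply div_le_div_of_nonneg_left (by positivity) (by positivity) h8
      _ = 16 * Y / L ^ 2 := by
          field_simp
          ring
  -- the pairs
  have hpair : ∀ h ∈ Icc 1 H, (P2 X h : ℝ) ≤ 4 * C * Y * l ^ 3 / L ^ 2 := by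
    intro h hh
    rw [mem_Icc] at hh
    have h4 : (h : ℝ) ≤ H := by exact_mod_cast hh.2
    have h10 : (H : ℝ) ≤ L / 2 := by
      refine hHle.trans ((div_le_self (by positivity) hl31).trans ?_)
      have h11 : a ≤ 1 / 2 := by
        rw [ha, div_le_div_iff₀ (by positivity) (by norm_num)]
        linarith
      calc a * L ≤ 1 / 2 * L := by gcongr
        _ = L / 2 := by ring
    have h5 := hX₁ X hX₁X h hh.1 (by linarith)
    have h7 : Real.log (Real.log X) ≤ l := by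
      rw [hl]
      exact Real.log_le_log hlogX0 hlogX
    have h8 : 0 ≤ Real.log (Real.log X) := Real.log_nonneg (by linarith)
    refine h5.trans ?_
    have h9 : (L / 2) ^ 2 ≤ Real.log X ^ 2 := pow_le_pow_left₀ (by positivity) hlogX2 2
    calc C * (X : ℝ) * Real.log (Real.log X) ^ 3 / Real.log X ^ 2 ≤ C * Y * l ^ 3 / (L / 2) ^ 2 := by
          apply div_le_div₀ (by positivity) _ (by positivity) h9
          have h12 : (X : ℝ) ≤ Y := by linarith
          gcongr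
      _ = 4 * C * Y * l ^ 3 / L ^ 2 := by
          field_simp
          ring
  have hsum : (∑ h ∈ Icc 1 H, (P2 X h : ℝ)) ≤ Y / (64 * L) := by
    calc (∑ h ∈ Icc 1 H, (P2 X h : ℝ)) ≤ ∑ _h ∈ Icc 1 H, 4 * C * Y * l ^ 3 / L ^ 2 := sum_le_sum hpair
      _ = H * (4 * C * Y * l ^ 3 / L ^ 2) := by
          rw [sum_const, nsmul_eq_mul, Nat.card_Icc, Nat.add_sub_cancel]
      _ ≤ (a * L / l ^ 3) * (4 * C * Y * l ^ 3 / L ^ 2) := by gcongr
      _ = 4 * (C * a) * (Y / L) := by field_simp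
      _ ≤ 4 * (1 / 256) * (Y / L) := by gcongr
      _ = Y / (64 * L) := by field_simp; ring
  -- the main term
  have hmain : (Y : ℝ) / (2 * L) ≤ Nat.primeCounting X := by
    have h3 := Chebyshev.pi_ge X
    refine le_trans ?_ h3
    have h5 : Real.log ((X : ℝ) + 1) ≤ Y / 64 := by
      have h6 : Real.log ((X : ℝ) + 1) ≤ Real.log (2 * Y) := Real.log_le_log (by linarith) (by linarith)
      rw [Real.log_mul (by norm_num) hY0.ne', ← hL] at h6
      have h8 := Real.log_two_lt_d9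
      linarith
    have h6 := Real.log_two_gt_d9
    have h7 : (X : ℝ) * 0.69 ≤ X * Real.log 2 := by
      apply mul_le_mul_of_nonneg_left _ hX0.le
      linarith
    have h8 : (Y : ℝ) / 2 ≤ X * Real.log 2 - Real.log (X + 1) := by linarith
    calc (Y : ℝ) / (2 * L) = (Y / 2) / L := by field_simp
      _ ≤ (X * Real.log 2 - Real.log (X + 1)) / Real.log X := by
        apply div_le_div₀ _ h8 hlogX0 hlogX
        linarith [show (0 : ℝ) ≤ Y / 2 by positivity]
  -- the inequality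
  have hco := hCO X H K J hKH
  rw [hXH] at hco
  obtain ⟨G, hG⟩ : ∃ G : ℕ, G = (good2 Y K J).card := ⟨_, rfl⟩
  rw [← hG] at hco
  rw [hXH] at hPP
  have hco' : ((H : ℝ) - K) * Nat.primeCounting X ≤
      2 * ((G : ℝ) + J * Nat.primeCounting (Nat.primeCounting (Y + J))) +
      2 * ((H : ℝ) - K) * (2 + ∑ h ∈ Icc 1 H, (P2 X h : ℝ)) := by
    have h3 : (((H - K) * Nat.primeCounting X : ℕ) : ℝ) ≤
      ((2 * (G + J * Nat.primeCounting (Nat.primeCounting (Y + J))) +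
      2 * (H - K) * (2 + ∑ h ∈ Icc 1 H, P2 X h) : ℕ) : ℝ) := by exact_mod_cast hco
    push_cast [Nat.cast_sub hKH] at h3
    exact h3
  have hW : (J : ℝ) * Nat.primeCounting (Nat.primeCounting (Y + J)) ≤ 16 * c * (Y / l ^ 3) := by
    calc (J : ℝ) * Nat.primeCounting (Nat.primeCounting (Y + J)) ≤ (c * L ^ 2 / l ^ 3) * (16 * Y / L ^ 2) := by
          gcongr
      _ = 16 * c * (Y / l ^ 3) := by
          field_simp
  have hD0 : 0 ≤ (H : ℝ) - K := by linarith
  have hS : 2 * (2 + ∑ h ∈ Icc 1 H, (P2 X h : ℝ)) ≤ Y / (4 * L) := by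
    have h3 : (4 : ℝ) ≤ Y / (32 * L) := by
      rw [le_div_iff₀ (by positivity)]
      linarith
    have h4 : (Y : ℝ) / (4 * L) = Y / (32 * L) + Y / (32 * L) + 3 * (Y / (16 * L)) := by
      field_simp
      norm_num
    have h5 : 2 * (Y / (64 * L)) = Y / (32 * L) := by
      field_simp
      norm_num
    have h6 : 0 ≤ 3 * (Y / (16 * L)) := by positivity
    linarith
  have hkey : ((H : ℝ) - K) * (Y / (4 * L)) ≤ 2 * ((G : ℝ) + 16 * c * (Y / l ^ 3)) := by
    have h3 : ((H : ℝ) - K) * (Y / (2 * L)) ≤ ((H : ℝ) - K) * Nat.primeCounting X :=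
      mul_le_mul_of_nonneg_left hmain hD0
    have h4 : 2 * ((H : ℝ) - K) * (2 + ∑ h ∈ Icc 1 H, (P2 X h : ℝ)) ≤ ((H : ℝ) - K) * (Y / (4 * L)) := by
      calc 2 * ((H : ℝ) - K) * (2 + ∑ h ∈ Icc 1 H, (P2 X h : ℝ)) =
            ((H : ℝ) - K) * (2 * (2 + ∑ h ∈ Icc 1 H, (P2 X h : ℝ))) := by ring
        _ ≤ ((H : ℝ) - K) * (Y / (4 * L)) := mul_le_mul_of_nonneg_left hS hD0
    have h5 : ((H : ℝ) - K) * (Y / (2 * L)) = ((H : ℝ) - K) * (Y / (4 * L)) + ((H : ℝ) - K) * (Y / (4 * L)) := by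
      field_simp
      ring
    linarith
  have hlow : a / 16 * (Y / l ^ 3) ≤ ((H : ℝ) - K) * (Y / (4 * L)) := by
    have h3 : a * L / l ^ 3 / 4 ≤ (H : ℝ) - K := by linarith
    calc a / 16 * (Y / l ^ 3) = (a * L / l ^ 3 / 4) * (Y / (4 * L)) := by
          field_simp
          norm_num
      _ ≤ ((H : ℝ) - K) * (Y / (4 * L)) := by
          apply mul_le_mul_of_nonneg_right h3
          positivity
  have hfin : c * Y / l ^ 3 ≤ G := by
    have h3 : c * Y / l ^ 3 = c * (Y / l ^ 3) := by ring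
    have h4 : a / 16 * (Y / l ^ 3) = (37.5 * c) * (Y / l ^ 3) := by
      rw [hc]
      ring
    have h5 : 0 ≤ c * (Y / l ^ 3) := by positivity
    rw [h3]
    rw [h4] at hlow
    nlinarith
  rw [← hK, ← hJ, ← hG]
  exact hfin

end Pool.Agent.PG50.AS54
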