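import Mathlib

/-!
# MP_28a32f_nt: `π (n + j)` is not prime on long intervals, interface statements
-/

set_option autoImplicit false

open Filter

namespace Pool.Agent.PG50

/-- the number of `n ≤ Y` such that `n` and `n + h` are both prime -/
def P2 (Y h : ℕ) : ℕ := ((Finset.Icc 1 Y).filter (fun n => n.Prime ∧ (n + h).Prime)).card

/-- the `n ≤ X` such that `π (n + j)` is not prime for all `j ≤ J` -/
noncomputable def good (X J : ℕ) : Finset ℕ := by
  classical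
  exact (Finset.Icc 1 X).filter (fun n => ∀ j ≤ J, ¬ (Nat.primeCounting (n + j)).Prime)

/-- ME: bounds for the sum of the reciprocals of the primes -/
def ME : Prop := ∃ C : ℝ, ∀ z : ℕ, 3 ≤ z →
  Real.log (Real.log z) - C ≤ ∑ q ∈ (Finset.Icc 1 z).filter Nat.Prime, (1 : ℝ) / q ∧
  ∑ q ∈ (Finset.Icc 1 z).filter Nat.Prime, (1 : ℝ) / q ≤ 4 * Real.log (Real.log z) + C

/-- PS: pairs of primes (from Brun's pure sieve) -/
def PS : Prop := ∃ C : ℝ, 0 < C ∧ ∀ᶠ X : ℕ in atTop, ∀ h : ℕ, 1 ≤ h → (h : ℝ) ≤ Real.log X →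
  (P2 X h : ℝ) ≤ C * X * Real.log (Real.log X) ^ 3 / Real.log X ^ 2

/-- CO: the finite inequality -/
def CO : Prop := ∀ X H J : ℕ, 1 ≤ H →
  (H * (Nat.primeCounting X - Nat.primeCounting H)) ^ 2 ≤
    ((good X J).card + (H + J) * Nat.primeCounting (Nat.primeCounting (X + H + J))) *
      (H * Nat.primeCounting (X + H) + 2 * H * ∑ h ∈ Finset.Icc 1 H, P2 (X + H) h)

/-- the theorem -/
def Main : Prop := ∃ c : ℝ, 0 < c ∧ ∀ᶠ X : ℕ in atTop,
  c * X / Real.log (Real.log X) ^ 3 ≤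
    ((good X ⌊c * Real.log X ^ 2 / Real.log (Real.log X) ^ 3⌋₊).card : ℝ)

end Pool.Agent.PG50
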