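import Mathlib
import Pool.Agent.PG50.Defs

/-!
Finite combinatorics for windows without prime values of `π`.
-/

set_option autoImplicit false

namespace Pool.Agent.PG50.Comb18

open Finset

theorem pi_succ_prime {q : ℕ} (hq : (q + 1).Prime) :
    Nat.primeCounting (q + 1) = Nat.primeCounting q + 1 := by
  rw [Nat.primeCounting, Nat.primeCounting, Nat.primeCounting', Nat.count_succ, if_pos hq]

theorem pi_succ_not {q : ℕ} (hq : ¬ (q + 1).Prime) :
    Nat.primeCounting (q + 1) = Nat.primeCounting q := by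
  rw [Nat.primeCounting, Nat.primeCounting, Nat.primeCounting', Nat.count_succ, if_neg hq,
    add_zero]

theorem pi_lt {p q : ℕ} (hq : q.Prime) (h : p < q) :
    Nat.primeCounting p < Nat.primeCounting q := by
  obtain ⟨r, rfl⟩ : ∃ r, q = r + 1 := ⟨q - 1, by omega⟩
  rw [pi_succ_prime hq]
  have := Nat.monotone_primeCounting (show p ≤ r by omega)
  omega

theorem pi_inj {p q : ℕ} (hp : p.Prime) (hq : q.Prime)
    (h : Nat.primeCounting p = Nat.primeCounting q) : p = q := by
  rcases lt_trichotomy p q with h1 | h1 | h1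
  · have := pi_lt hq h1
    omega
  · exact h1
  · have := pi_lt hp h1
    omega

theorem dich (n : ℕ) : ∀ j : ℕ, Nat.primeCounting (n + j) = Nat.primeCounting n ∨
    ∃ p, p.Prime ∧ n < p ∧ p ≤ n + j ∧ Nat.primeCounting p = Nat.primeCounting (n + j)
  | 0 => Or.inl rfl
  | j + 1 => by
    by_cases hq : (n + j + 1).Prime
    · exact Or.inr ⟨n + j + 1, hq, by omega, by omega, rfl⟩
    · have h1 : Nat.primeCounting (n + (j + 1)) = Nat.primeCounting (n + j) := pi_succ_not hq
      rcases dich n j with h | ⟨p, hp, h2, h3, h4⟩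
      · exact Or.inl (h1.trans h)
      · exact Or.inr ⟨p, hp, h2, by omega, h4.trans h1.symm⟩

theorem card_Y (Y : ℕ) : Nat.primeCounting Y = ((Finset.range (Y + 1)).filter Nat.Prime).card := by
  rw [Nat.primeCounting, Nat.primeCounting', Nat.count_eq_card_filter_range]

/-- primes whose index has a shift that is prime -/
theorem card_shift (Y s : ℕ) :
    ((Finset.Icc 1 Y).filter (fun p => p.Prime ∧ (Nat.primeCounting p - s).Prime)).card ≤
      Nat.primeCounting (Nat.primeCounting Y) := by
  rw [card_Y (Nat.primeCounting Y)]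
  refine Finset.card_le_card_of_injOn (fun p => Nat.primeCounting p - s) ?_ ?_
  · intro p hp
    rw [Finset.mem_coe, Finset.mem_filter, Finset.mem_Icc] at hp
    rw [Finset.mem_coe, Finset.mem_filter, Finset.mem_range]
    have := Nat.monotone_primeCounting hp.1.2
    exact ⟨by show Nat.primeCounting p - s < _; omega, hp.2.2⟩
  · intro p hp q hq he
    rw [Finset.mem_coe, Finset.mem_filter, Finset.mem_Icc] at hp hq
    have he' : Nat.primeCounting p - s = Nat.primeCounting q - s := he
    have h1 := hp.2.2.pos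
    have h2 := hq.2.2.pos
    exact pi_inj hp.2.1 hq.2.1 (by omega)

/-- the union of the windows before the elements of a set -/
theorem card_win (T : Finset ℕ) (H : ℕ) :
    (T.biUnion fun p => Finset.Ico (p - H) p).card ≤ T.card * H := by
  refine Finset.card_biUnion_le_card_mul _ _ _ ?_
  intro p _
  rw [Nat.card_Ico]
  omega

theorem next {n H : ℕ} (h : ∃ p, p.Prime ∧ n < p ∧ p ≤ n + H) :
    ∃ p, p.Prime ∧ n < p ∧ p ≤ n + H ∧ Nat.primeCounting p = Nat.primeCounting n + 1 := by
  classical
  obtain ⟨p, hp, hmin⟩ : ∃ p, (p.Prime ∧ n < p ∧ p ≤ n + H) ∧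
      ∀ q, q < p → ¬ (q.Prime ∧ n < q ∧ q ≤ n + H) :=
    ⟨Nat.find h, Nat.find_spec h, fun q hq => Nat.find_min h hq⟩
  refine ⟨p, hp.1, hp.2.1, hp.2.2, ?_⟩
  obtain ⟨r, hr⟩ : ∃ r, p = n + r + 1 := ⟨p - n - 1, by omega⟩
  have hpp : (n + r + 1).Prime := hr ▸ hp.1
  rw [hr, pi_succ_prime hpp]
  rcases dich n r with h1 | ⟨q, hq, h2, h3, _⟩
  · rw [h1]
  · exact absurd ⟨hq, h2, by omega⟩ (hmin q (by omega))

open Classical in
/-- the finite statement -/
theorem comb (X H J : ℕ) :
    ((Finset.Icc 1 X).filter (fun n => ∃ p, p.Prime ∧ n < p ∧ p ≤ n + H)).card ≤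
      (good X J).card + (H + J) * Nat.primeCounting (Nat.primeCounting (X + H + J)) := by
  classical
  obtain ⟨T1, hT1⟩ : ∃ T1 : Finset ℕ, T1 = (Finset.Icc 1 (X + H + J)).filter
    (fun p => p.Prime ∧ (Nat.primeCounting p - 1).Prime) := ⟨_, rfl⟩
  obtain ⟨T2, hT2⟩ : ∃ T2 : Finset ℕ, T2 = (Finset.Icc 1 (X + H + J)).filter
    (fun p => p.Prime ∧ (Nat.primeCounting p - 0).Prime) := ⟨_, rfl⟩
  have hsub : (Finset.Icc 1 X).filter (fun n => ∃ p, p.Prime ∧ n < p ∧ p ≤ n + H) ⊆
      good X J ∪ ((T1.biUnion fun p => Finset.Ico (p - H) p) ∪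
        (T2.biUnion fun p => Finset.Ico (p - J) p)) := by
    intro n hn
    rw [Finset.mem_filter, Finset.mem_Icc] at hn
    obtain ⟨hnX, hex⟩ := hn
    by_cases hb1 : (Nat.primeCounting n).Prime
    · rw [Finset.mem_union, Finset.mem_union]
      right
      left
      obtain ⟨p, hp, h1, h2, h3⟩ := next hex
      rw [Finset.mem_biUnion]
      refine ⟨p, ?_, ?_⟩
      · rw [hT1, Finset.mem_filter, Finset.mem_Icc, h3]
        exact ⟨by omega, hp, by simpa using hb1⟩
      · rw [Finset.mem_Ico]
        omega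
    by_cases hb2 : ∃ p, p.Prime ∧ n < p ∧ p ≤ n + J ∧ (Nat.primeCounting p).Prime
    · rw [Finset.mem_union, Finset.mem_union]
      right
      right
      obtain ⟨p, hp, h1, h2, h3⟩ := hb2
      rw [Finset.mem_biUnion]
      refine ⟨p, ?_, ?_⟩
      · rw [hT2, Finset.mem_filter, Finset.mem_Icc]
        exact ⟨by omega, hp, by simpa using h3⟩
      · rw [Finset.mem_Ico]
        omega
    · rw [Finset.mem_union]
      left
      rw [good, Finset.mem_filter, Finset.mem_Icc]
      refine ⟨hnX, ?_⟩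
      intro j hj hpr
      rcases dich n j with h | ⟨p, hp, h1, h2, h3⟩
      · rw [h] at hpr
        exact hb1 hpr
      · rw [← h3] at hpr
        exact hb2 ⟨p, hp, h1, by omega, hpr⟩
  refine (Finset.card_le_card hsub).trans ?_
  refine (Finset.card_union_le _ _).trans ?_
  apply Nat.add_le_add_left
  refine (Finset.card_union_le _ _).trans ?_
  have c1 := card_win T1 H
  have c2 := card_win T2 J
  have d1 := card_shift (X + H + J) 1
  have d2 := card_shift (X + H + J) 0
  rw [← hT1] at d1
  rw [← hT2] at d2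
  calc _ ≤ T1.card * H + T2.card * J := Nat.add_le_add c1 c2
    _ ≤ Nat.primeCounting (Nat.primeCounting (X + H + J)) * H +
        Nat.primeCounting (Nat.primeCounting (X + H + J)) * J :=
      Nat.add_le_add (Nat.mul_le_mul_right _ d1) (Nat.mul_le_mul_right _ d2)
    _ = (H + J) * Nat.primeCounting (Nat.primeCounting (X + H + J)) := by ring

end Pool.Agent.PG50.Comb18
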