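import Mathlib
import Pool.Agent.PG50.Comb18

set_option autoImplicit false

namespace Pool.Agent.PG50.CO18

open Finset

/-- primes in the window `(n, n + H]` -/
def W (H n : ℕ) : Finset ℕ := (Finset.Ioc n (n + H)).filter Nat.Prime

theorem mem_W {H n p : ℕ} : p ∈ W H n ↔ (n < p ∧ p ≤ n + H) ∧ p.Prime := by
  simp [W]

theorem sq_le (V : Finset ℕ) :
    V.card ^ 2 ≤ V.card + 2 * ((V ×ˢ V).filter (fun q => q.1 < q.2)).card := by
  classical
  have hsub : V ×ˢ V ⊆ V.image (fun x => (x, x)) ∪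
      (((V ×ˢ V).filter (fun q => q.1 < q.2)) ∪
        ((V ×ˢ V).filter (fun q => q.1 < q.2)).image Prod.swap) := by
    rintro ⟨a, b⟩ h
    rw [Finset.mem_product] at h
    obtain ⟨ha, hb⟩ := h
    simp only [Finset.mem_union, Finset.mem_image, Finset.mem_filter, Finset.mem_product]
    rcases lt_trichotomy a b with h1 | h1 | h1
    · exact Or.inr (Or.inl ⟨⟨ha, hb⟩, h1⟩)
    · exact Or.inl ⟨a, ha, by rw [h1]⟩
    · exact Or.inr (Or.inr ⟨(b, a), ⟨⟨hb, ha⟩, h1⟩, rfl⟩)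
  have h1 := Finset.card_le_card hsub
  rw [Finset.card_product] at h1
  have h2 := Finset.card_union_le (V.image (fun x => (x, x)))
    (((V ×ˢ V).filter (fun q => q.1 < q.2)) ∪
        ((V ×ˢ V).filter (fun q => q.1 < q.2)).image Prod.swap)
  have h3 := Finset.card_union_le ((V ×ˢ V).filter (fun q => q.1 < q.2))
    (((V ×ˢ V).filter (fun q => q.1 < q.2)).image Prod.swap)
  have h4 := Finset.card_image_le (s := V) (f := fun x => (x, x))
  have h5 := Finset.card_image_le (s := (V ×ˢ V).filter (fun q => q.1 < q.2)) (f := Prod.swap)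
  rw [sq]
  omega

theorem sum_lower (X H : ℕ) :
    H * (Nat.primeCounting X - Nat.primeCounting H) ≤ ∑ n ∈ Finset.Icc 1 X, (W H n).card := by
  classical
  rw [← Finset.card_sigma]
  have h0 : Nat.primeCounting X - Nat.primeCounting H ≤
      ((Finset.Ioc H X).filter Nat.Prime).card := by
    rw [Comb18.card_Y, Comb18.card_Y]
    have : (Finset.range (X + 1)).filter Nat.Prime ⊆
        (Finset.range (H + 1)).filter Nat.Prime ∪ (Finset.Ioc H X).filter Nat.Prime := by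
      intro p hp
      rw [Finset.mem_filter, Finset.mem_range] at hp
      rw [Finset.mem_union, Finset.mem_filter, Finset.mem_filter, Finset.mem_range,
        Finset.mem_Ioc]
      by_cases h : p < H + 1
      · exact Or.inl ⟨h, hp.2⟩
      · exact Or.inr ⟨⟨by omega, by omega⟩, hp.2⟩
    have h1 := (Finset.card_le_card this).trans (Finset.card_union_le _ _)
    omega
  refine (Nat.mul_le_mul_left H h0).trans ?_
  have h1 : H * ((Finset.Ioc H X).filter Nat.Prime).card =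
      ((Finset.range H) ×ˢ ((Finset.Ioc H X).filter Nat.Prime)).card := by
    rw [Finset.card_product, Finset.card_range]
  rw [h1]
  refine Finset.card_le_card_of_injOn
    (fun q => (⟨q.2 - 1 - q.1, q.2⟩ : (_ : ℕ) × ℕ)) ?_ ?_
  · rintro ⟨i, p⟩ h
    simp only [Finset.coe_product, Set.mem_prod, Finset.mem_coe, Finset.mem_range,
      Finset.mem_filter, Finset.mem_Ioc] at h
    rw [Finset.mem_coe, Finset.mem_sigma, mem_W, Finset.mem_Icc]
    show (1 ≤ p - 1 - i ∧ p - 1 - i ≤ X) ∧ (p - 1 - i < p ∧ p ≤ p - 1 - i + H) ∧ p.Prime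
    exact ⟨⟨by omega, by omega⟩, ⟨by omega, by omega⟩, h.2.2⟩
  · rintro ⟨i, p⟩ h ⟨i', p'⟩ h' he
    simp only [Finset.coe_product, Set.mem_prod, Finset.mem_coe, Finset.mem_range,
      Finset.mem_filter, Finset.mem_Ioc] at h h'
    have he' : (⟨p - 1 - i, p⟩ : (_ : ℕ) × ℕ) = ⟨p' - 1 - i', p'⟩ := he
    rw [Sigma.mk.injEq] at he'
    obtain ⟨e1, e2⟩ := he'
    have e2' : p = p' := eq_of_heq e2
    subst e2'
    have : i = i' := by omega
    rw [this]

theorem sum_upper (X H : ℕ) :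
    ∑ n ∈ Finset.Icc 1 X, (W H n).card ≤ H * Nat.primeCounting (X + H) := by
  classical
  rw [← Finset.card_sigma]
  have h1 : H * Nat.primeCounting (X + H) =
      ((Finset.range H) ×ˢ ((Finset.range (X + H + 1)).filter Nat.Prime)).card := by
    rw [Finset.card_product, Finset.card_range, Comb18.card_Y]
  rw [h1]
  refine Finset.card_le_card_of_injOn (fun q => (q.2 - 1 - q.1, q.2)) ?_ ?_
  · rintro ⟨n, p⟩ h
    rw [Finset.mem_coe, Finset.mem_sigma, mem_W, Finset.mem_Icc] at h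
    have h' : (1 ≤ n ∧ n ≤ X) ∧ (n < p ∧ p ≤ n + H) ∧ p.Prime := h
    rw [Finset.mem_coe, Finset.mem_product, Finset.mem_range, Finset.mem_filter,
      Finset.mem_range]
    show p - 1 - n < H ∧ p < X + H + 1 ∧ p.Prime
    exact ⟨by omega, by omega, h'.2.2⟩
  · rintro ⟨n, p⟩ h ⟨n', p'⟩ h' he
    rw [Finset.mem_coe, Finset.mem_sigma, mem_W, Finset.mem_Icc] at h h'
    have g : (1 ≤ n ∧ n ≤ X) ∧ (n < p ∧ p ≤ n + H) ∧ p.Prime := h
    have g' : (1 ≤ n' ∧ n' ≤ X) ∧ (n' < p' ∧ p' ≤ n' + H) ∧ p'.Prime := h'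
    have he' : (p - 1 - n, p) = (p' - 1 - n', p') := he
    rw [Prod.mk.injEq] at he'
    obtain ⟨e1, e2⟩ := he'
    subst e2
    have : n = n' := by omega
    rw [this]

theorem sum_pairs (X H : ℕ) :
    ∑ n ∈ Finset.Icc 1 X, ((W H n ×ˢ W H n).filter (fun q => q.1 < q.2)).card ≤
      H * ∑ h ∈ Finset.Icc 1 H, P2 (X + H) h := by
  classical
  rw [← Finset.card_sigma]
  have h1 : H * ∑ h ∈ Finset.Icc 1 H, P2 (X + H) h =
      ((Finset.Icc 1 H).sigma (fun h =>
        ((Finset.Icc 1 (X + H)).filter (fun n => n.Prime ∧ (n + h).Prime)) ×ˢ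
          Finset.range H)).card := by
    rw [Finset.card_sigma, Finset.mul_sum]
    refine Finset.sum_congr rfl fun h _ => ?_
    rw [Finset.card_product, Finset.card_range, P2]
    ring
  rw [h1]
  refine Finset.card_le_card_of_injOn
    (fun q => (⟨q.2.2 - q.2.1, (q.2.1, q.2.1 - 1 - q.1)⟩ : (_ : ℕ) × (ℕ × ℕ))) ?_ ?_
  · rintro ⟨n, p, r⟩ h
    rw [Finset.mem_coe, Finset.mem_sigma, Finset.mem_filter, Finset.mem_product, mem_W, mem_W,
      Finset.mem_Icc] at h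
    have g : (1 ≤ n ∧ n ≤ X) ∧ (((n < p ∧ p ≤ n + H) ∧ p.Prime) ∧
      ((n < r ∧ r ≤ n + H) ∧ r.Prime)) ∧ p < r := h
    rw [Finset.mem_coe, Finset.mem_sigma, Finset.mem_product, Finset.mem_filter,
      Finset.mem_Icc, Finset.mem_Icc, Finset.mem_range]
    show (1 ≤ r - p ∧ r - p ≤ H) ∧ ((1 ≤ p ∧ p ≤ X + H) ∧ p.Prime ∧ (p + (r - p)).Prime) ∧
      p - 1 - n < H
    have e : p + (r - p) = r := by omega
    rw [e]
    exact ⟨⟨by omega, by omega⟩, ⟨⟨by omega, by omega⟩, g.2.1.1.2, g.2.1.2.2⟩, by omega⟩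
  · rintro ⟨n, p, r⟩ h ⟨n', p', r'⟩ h' he
    rw [Finset.mem_coe, Finset.mem_sigma, Finset.mem_filter, Finset.mem_product, mem_W, mem_W,
      Finset.mem_Icc] at h h'
    have g : (1 ≤ n ∧ n ≤ X) ∧ (((n < p ∧ p ≤ n + H) ∧ p.Prime) ∧
      ((n < r ∧ r ≤ n + H) ∧ r.Prime)) ∧ p < r := h
    have g' : (1 ≤ n' ∧ n' ≤ X) ∧ (((n' < p' ∧ p' ≤ n' + H) ∧ p'.Prime) ∧
      ((n' < r' ∧ r' ≤ n' + H) ∧ r'.Prime)) ∧ p' < r' := h'
    have he' : (⟨r - p, (p, p - 1 - n)⟩ : (_ : ℕ) × (ℕ × ℕ)) = ⟨r' - p', (p', p' - 1 - n')⟩ := he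
    rw [Sigma.mk.injEq] at he'
    obtain ⟨e1, e2⟩ := he'
    have e2' := eq_of_heq e2
    rw [Prod.mk.injEq] at e2'
    obtain ⟨e3, e4⟩ := e2'
    subst e3
    have a1 : n = n' := by omega
    have a2 : r = r' := by omega
    rw [a1, a2]

theorem co18 : CO := by
  classical
  intro X H J _
  obtain ⟨A, hA⟩ : ∃ A : Finset ℕ, A = (Finset.Icc 1 X).filter
    (fun n => ∃ p, p.Prime ∧ n < p ∧ p ≤ n + H) := ⟨_, rfl⟩
  have hcomb := Comb18.comb X H J
  have hcomb' : A.card ≤ (good X J).card +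
      (H + J) * Nat.primeCounting (Nat.primeCounting (X + H + J)) := by
    rw [hA]
    convert hcomb
  have hAsub : A ⊆ Finset.Icc 1 X := by rw [hA]; exact Finset.filter_subset _ _
  have hsum : ∑ n ∈ Finset.Icc 1 X, (W H n).card = ∑ n ∈ A, (W H n).card := by
    symm
    refine Finset.sum_subset hAsub ?_
    intro n hn hnA
    rw [Finset.card_eq_zero, Finset.eq_empty_iff_forall_notMem]
    intro p hp
    rw [mem_W] at hp
    apply hnA
    rw [hA, Finset.mem_filter]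
    exact ⟨hn, p, hp.2, hp.1.1, hp.1.2⟩
  have hsq : ∑ n ∈ A, (W H n).card ^ 2 ≤
      H * Nat.primeCounting (X + H) + 2 * H * ∑ h ∈ Finset.Icc 1 H, P2 (X + H) h := by
    calc ∑ n ∈ A, (W H n).card ^ 2 ≤ ∑ n ∈ Finset.Icc 1 X, (W H n).card ^ 2 :=
          Finset.sum_le_sum_of_subset hAsub
      _ ≤ ∑ n ∈ Finset.Icc 1 X, ((W H n).card +
          2 * ((W H n ×ˢ W H n).filter (fun q => q.1 < q.2)).card) :=
          Finset.sum_le_sum fun n _ => sq_le _
      _ = ∑ n ∈ Finset.Icc 1 X, (W H n).card +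
          2 * ∑ n ∈ Finset.Icc 1 X, ((W H n ×ˢ W H n).filter (fun q => q.1 < q.2)).card := by
          rw [Finset.sum_add_distrib, Finset.mul_sum]
      _ ≤ H * Nat.primeCounting (X + H) + 2 * (H * ∑ h ∈ Finset.Icc 1 H, P2 (X + H) h) :=
          Nat.add_le_add (sum_upper X H) (Nat.mul_le_mul_left 2 (sum_pairs X H))
      _ = _ := by ring
  calc (H * (Nat.primeCounting X - Nat.primeCounting H)) ^ 2
      ≤ (∑ n ∈ Finset.Icc 1 X, (W H n).card) ^ 2 := Nat.pow_le_pow_left (sum_lower X H) 2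
    _ = (∑ n ∈ A, (W H n).card) ^ 2 := by rw [hsum]
    _ ≤ A.card * ∑ n ∈ A, (W H n).card ^ 2 := sq_sum_le_card_mul_sum_sq
    _ ≤ _ := Nat.mul_le_mul hcomb' hsq

end Pool.Agent.PG50.CO18
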