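import Pool.Agent.PG50.Defs

/-!
# MP_28a32f_nt: the stronger form (also `π` constant on a shorter interval)
-/

set_option autoImplicit false

open Filter

namespace Pool.Agent.PG50

/-- the `n ≤ X` such that `π` is constant on `[n, n + K]` and `π (n + j)` is not prime for all
`j ≤ J` -/
noncomputable def good2 (X K J : ℕ) : Finset ℕ := by
  classical
  exact (Finset.Icc 1 X).filter (fun n =>
    (∀ j ≤ K, Nat.primeCounting (n + j) = Nat.primeCounting n) ∧
    ∀ j ≤ J, ¬ (Nat.primeCounting (n + j)).Prime)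

/-- CO2: the finite inequality (primes of even index without a prime in the next `H` places) -/
def CO2 : Prop := ∀ X H K J : ℕ, K ≤ H →
  (H - K) * Nat.primeCounting X ≤
    2 * ((good2 (X + H) K J).card + J * Nat.primeCounting (Nat.primeCounting (X + H + J))) +
      2 * (H - K) * (2 + ∑ h ∈ Finset.Icc 1 H, P2 X h)

/-- the theorem -/
def Main2 : Prop := ∃ c : ℝ, 0 < c ∧ ∀ᶠ X : ℕ in atTop,
  c * X / Real.log (Real.log X) ^ 3 ≤
    ((good2 X ⌊c * Real.log X / Real.log (Real.log X) ^ 3⌋₊
      ⌊c * Real.log X ^ 2 / Real.log (Real.log X) ^ 3⌋₊).card : ℝ)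

end Pool.Agent.PG50
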