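import Pool.Agent.PG50.Defs

namespace Pool.Agent.PG50.AS26

open Filter Finset

theorem pi_succ (n : ℕ) : Nat.primeCounting (n + 1) =
    Nat.primeCounting n + if (n + 1).Prime then 1 else 0 := by
  unfold Nat.primeCounting Nat.primeCounting'
  rw [Nat.count_succ]

theorem pi_add_le (m t : ℕ) : Nat.primeCounting (m + t) ≤ Nat.primeCounting m + t := by
  induction t with
  | zero => simp
  | succ t ih =>
    rw [← add_assoc, pi_succ]
    split_ifs <;> omega

/-- a jump of `π` on `[n, n + j]` gives a prime of the same index as `n + j` -/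
theorem exists_next {n : ℕ} : ∀ j : ℕ, Nat.primeCounting (n + j) ≠ Nat.primeCounting n →
    ∃ h, 1 ≤ h ∧ h ≤ j ∧ (n + h).Prime ∧
      Nat.primeCounting (n + h) = Nat.primeCounting (n + j) := by
  intro j
  induction j with
  | zero => intro h; exact absurd rfl h
  | succ j ih =>
    intro h
    by_cases hp : (n + (j + 1)).Prime
    · exact ⟨j + 1, by omega, le_refl _, hp, rfl⟩
    · have e : Nat.primeCounting (n + (j + 1)) = Nat.primeCounting (n + j) := by
        rw [← add_assoc, pi_succ, if_neg (by rwa [add_assoc]), add_zero]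
      rw [e] at h ⊢
      obtain ⟨h', h1, h2, h3, h4⟩ := ih h
      exact ⟨h', h1, by omega, h3, h4⟩

theorem pi_nth (n : ℕ) : Nat.primeCounting (Nat.nth Nat.Prime n) = n + 1 := by
  unfold Nat.primeCounting Nat.primeCounting'
  rw [Nat.count_succ, Nat.count_nth_of_infinite Nat.infinite_setOfPred_prime,
    if_pos (Nat.prime_nth_prime n)]

theorem pi_eq_card (Y : ℕ) :
    ((Finset.range (Y + 1)).filter Nat.Prime).card = Nat.primeCounting Y := by
  unfold Nat.primeCounting Nat.primeCounting'
  rw [Nat.count_eq_card_filter_range]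

/-- the finite inequality -/
theorem fin_ineq (X H J : ℕ) (hHX : H ≤ X) :
    H * Nat.primeCounting X ≤ 2 * (good X J).card +
      2 * (J * Nat.primeCounting (Nat.primeCounting (X + J))) +
      2 * H * (∑ h ∈ Finset.Icc 1 H, P2 X h) + H * (H + 4) := by
  classical
  obtain ⟨R, hR⟩ : ∃ R, R = (Nat.primeCounting (X - H) - 3) / 2 := ⟨_, rfl⟩
  set A := (Finset.range R).image (fun i => Nat.nth Nat.Prime (2 * i + 3)) with hA
  have hAcard : A.card = R := by
    rw [hA, Finset.card_image_of_injective, Finset.card_range]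
    intro i j hij
    have := Nat.nth_injective Nat.infinite_setOfPred_prime hij
    omega
  have hAp : ∀ p ∈ A, p.Prime ∧ p ≤ X - H ∧ ¬ (Nat.primeCounting p).Prime := by
    intro p hp
    rw [hA, Finset.mem_image] at hp
    obtain ⟨i, hi, rfl⟩ := hp
    rw [Finset.mem_range] at hi
    refine ⟨Nat.prime_nth_prime _, ?_, ?_⟩
    · have hx : Nat.nth Nat.Prime (2 * i + 3) < X - H + 1 := by
        apply Nat.nth_lt_of_lt_count
        show 2 * i + 3 < Nat.primeCounting (X - H)
        omega
      omega
    · rw [pi_nth]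
      intro hq
      have h2 : 2 ∣ 2 * i + 3 + 1 := ⟨i + 2, by ring⟩
      have := (Nat.prime_dvd_prime_iff_eq Nat.prime_two hq).1 h2
      omega
  set E := A.filter (fun p => ∀ h ∈ Finset.Icc 1 H, ¬ (p + h).Prime) with hE
  have hsub1 : A ⊆ E ∪ (Finset.Icc 1 H).biUnion
      (fun h => (Finset.Icc 1 X).filter (fun n => n.Prime ∧ (n + h).Prime)) := by
    intro p hp
    rw [Finset.mem_union]
    by_cases hpe : p ∈ E
    · left; exact hpe
    · right
      rw [hE, Finset.mem_filter] at hpe
      push Not at hpe
      obtain ⟨h, hh, hpr⟩ := hpe hp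
      rw [Finset.mem_biUnion]
      refine ⟨h, hh, ?_⟩
      rw [Finset.mem_filter, Finset.mem_Icc]
      obtain ⟨a1, a2, _⟩ := hAp p hp
      exact ⟨⟨a1.pos, by omega⟩, a1, hpr⟩
  have h1 : R ≤ E.card + ∑ h ∈ Finset.Icc 1 H, P2 X h := by
    rw [← hAcard]
    refine (Finset.card_le_card hsub1).trans ((Finset.card_union_le _ _).trans ?_)
    exact Nat.add_le_add_left Finset.card_biUnion_le _
  -- the intervals
  have hconst : ∀ p ∈ E, ∀ i < H, Nat.primeCounting (p + i) = Nat.primeCounting p := by
    intro p hp i hi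
    by_contra hne
    obtain ⟨h, a1, a2, a3, _⟩ := exists_next i hne
    rw [hE, Finset.mem_filter] at hp
    exact hp.2 h (Finset.mem_Icc.2 ⟨a1, by omega⟩) a3
  set N1 := (E ×ˢ Finset.range H).image (fun q => q.1 + q.2) with hN1
  have hN1card : N1.card = E.card * H := by
    rw [hN1, Finset.card_image_of_injOn, Finset.card_product, Finset.card_range]
    rintro ⟨p, i⟩ hpi ⟨p', i'⟩ hpi' heq
    simp only [Finset.coe_product, Set.mem_prod, Finset.mem_coe, Finset.mem_range] at hpi hpi'
    simp only at heq
    have hE1 := hpi.1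
    have hE2 := hpi'.1
    rw [hE, Finset.mem_filter] at hE1 hE2
    have key : p = p' := by
      rcases lt_trichotomy p p' with hlt | he | hgt
      · exfalso
        have := hE1.2 (p' - p) (Finset.mem_Icc.2 ⟨by omega, by omega⟩)
        rw [show p + (p' - p) = p' by omega] at this
        exact this (hAp p' hE2.1).1
      · exact he
      · exfalso
        have := hE2.2 (p - p') (Finset.mem_Icc.2 ⟨by omega, by omega⟩)
        rw [show p' + (p - p') = p by omega] at this
        exact this (hAp p hE1.1).1
    subst key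
    rw [Prod.mk.injEq]
    exact ⟨rfl, by omega⟩
  set Q := (Finset.range (X + J + 1)).filter
    (fun q => q.Prime ∧ (Nat.primeCounting q).Prime) with hQ
  have hQcard : Q.card ≤ Nat.primeCounting (Nat.primeCounting (X + J)) := by
    rw [← pi_eq_card]
    apply Finset.card_le_card_of_injOn (fun q => Nat.primeCounting q)
    · intro q hq
      rw [Finset.mem_coe, hQ, Finset.mem_filter, Finset.mem_range] at hq
      simp only [Finset.coe_filter, Finset.mem_range, Set.mem_ofPred_eq]
      exact ⟨Nat.lt_succ_of_le (Nat.monotone_primeCounting (by omega)), hq.2.2⟩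
    · intro q hq q' hq' he
      rw [Finset.mem_coe, hQ, Finset.mem_filter, Finset.mem_range] at hq hq'
      simp only at he
      by_contra hne
      have key : ∀ a b : ℕ, a < b → b.Prime → Nat.primeCounting a ≠ Nat.primeCounting b := by
        intro a b hab hb
        obtain ⟨b', rfl⟩ : ∃ b', b = b' + 1 := ⟨b - 1, by omega⟩
        rw [pi_succ, if_pos hb]
        have := Nat.monotone_primeCounting (show a ≤ b' by omega)
        omega
      rcases Nat.lt_or_gt_of_ne hne with h | h
      · exact key q q' h hq'.2.1 he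
      · exact key q' q h hq.2.1 he.symm
  have hsub2 : N1 ⊆ good X J ∪ Q.biUnion (fun q => Finset.Ico (q - J) q) := by
    intro n hn
    have hn0 := hn
    rw [hN1, Finset.mem_image] at hn
    obtain ⟨⟨p, i⟩, hpi, rfl⟩ := hn
    rw [Finset.mem_product, Finset.mem_range] at hpi
    simp only at hpi ⊢
    have hpE := hpi.1
    rw [hE, Finset.mem_filter] at hpE
    obtain ⟨b1, b2, b3⟩ := hAp p hpE.1
    rw [Finset.mem_union]
    by_cases hg : p + i ∈ good X J
    · left; exact hg
    · right
      have hg' : ∃ j ≤ J, (Nat.primeCounting (p + i + j)).Prime := by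
        by_contra hcon
        push Not at hcon
        apply hg
        unfold good
        rw [Finset.mem_filter, Finset.mem_Icc]
        have := b1.pos
        exact ⟨⟨by omega, by omega⟩, hcon⟩
      obtain ⟨j, hj, hpr⟩ := hg'
      have hne : Nat.primeCounting (p + i + j) ≠ Nat.primeCounting (p + i) := by
        rw [hconst p hpi.1 i hpi.2]
        intro he
        rw [he] at hpr
        exact b3 hpr
      obtain ⟨h, c1, c2, c3, c4⟩ := exists_next j hne
      rw [Finset.mem_biUnion]
      refine ⟨p + i + h, ?_, ?_⟩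
      · rw [hQ, Finset.mem_filter, Finset.mem_range]
        refine ⟨by omega, c3, ?_⟩
        rw [c4]; exact hpr
      · rw [Finset.mem_Ico]
        omega
  have h2 : E.card * H ≤ (good X J).card +
      Nat.primeCounting (Nat.primeCounting (X + J)) * J := by
    rw [← hN1card]
    refine (Finset.card_le_card hsub2).trans ((Finset.card_union_le _ _).trans ?_)
    refine Nat.add_le_add_left ?_ _
    refine Finset.card_biUnion_le.trans ?_
    calc ∑ q ∈ Q, (Finset.Ico (q - J) q).card ≤ ∑ q ∈ Q, J := by
          refine Finset.sum_le_sum (fun q _ => ?_)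
          rw [Nat.card_Ico]; omega
      _ = Q.card * J := by rw [Finset.sum_const, smul_eq_mul]
      _ ≤ _ := Nat.mul_le_mul_right _ hQcard
  have h3 : Nat.primeCounting X ≤ Nat.primeCounting (X - H) + H := by
    have := pi_add_le (X - H) H
    rwa [Nat.sub_add_cancel hHX] at this
  have h4 : Nat.primeCounting X ≤ 2 * E.card + 2 * (∑ h ∈ Finset.Icc 1 H, P2 X h) + (H + 4) := by
    omega
  calc H * Nat.primeCounting X
      ≤ H * (2 * E.card + 2 * (∑ h ∈ Finset.Icc 1 H, P2 X h) + (H + 4)) :=
        Nat.mul_le_mul_left _ h4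
    _ = 2 * (E.card * H) + 2 * H * (∑ h ∈ Finset.Icc 1 H, P2 X h) + H * (H + 4) := by ring
    _ ≤ 2 * ((good X J).card + Nat.primeCounting (Nat.primeCounting (X + J)) * J) +
        2 * H * (∑ h ∈ Finset.Icc 1 H, P2 X h) + H * (H + 4) := by
        have := Nat.mul_le_mul_left 2 h2
        omega
    _ = _ := by ring

end Pool.Agent.PG50.AS26
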