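import Pool.Agent.PG50.Defs
import Pool.Agent.LW34.Pairs

/-!
# MP_28a32f_nt: row PS, and the form with a power of the logarithm (helper34)
-/

set_option autoImplicit false

namespace Pool.Agent.PG50.PS34

open Finset

/-- row PS -/
theorem ps34 : Pool.Agent.PG50.PS := by
  obtain ⟨C, hC, x₀, h⟩ := Pool.Agent.LW34.pairs
  refine ⟨C, hC, ?_⟩
  filter_upwards [Filter.eventually_ge_atTop x₀] with X hX
  intro k hk hk2
  exact h X k hX hk hk2

/-- the form with a power of the logarithm -/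
theorem hp34 : ∀ d : ℝ, 0 < d → ∀ᶠ x : ℕ in Filter.atTop, ∀ h : ℕ, 1 ≤ h → (h : ℝ) ≤ Real.log x →
    (((Finset.Icc 1 x).filter (fun n => n.Prime ∧ (n + h).Prime)).card : ℝ) ≤
      x * Real.log x ^ (-2 + 3 * d) := by
  intro d hd
  obtain ⟨C, hC, x₀, h⟩ := Pool.Agent.LW34.pairs
  have hLt : Filter.Tendsto (fun x : ℕ => Real.log (x : ℝ)) Filter.atTop Filter.atTop :=
    Real.tendsto_log_atTop.comp tendsto_natCast_atTop_atTop
  have e1 : ∀ᶠ y : ℝ in Filter.atTop, C * Real.log y ^ 3 ≤ y ^ (3 * d) := by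
    have h1 := (isLittleO_log_rpow_atTop hd).bound (show (0 : ℝ) < 1 / (C + 1) by positivity)
    filter_upwards [h1, Filter.eventually_ge_atTop 1] with y hy hy1
    have hy0 : (0 : ℝ) ≤ y := by linarith
    have hl0 : 0 ≤ Real.log y := Real.log_nonneg hy1
    rw [Real.norm_eq_abs, Real.norm_eq_abs, abs_of_nonneg hl0, abs_of_nonneg (Real.rpow_nonneg hy0 _)] at hy
    have h2 : Real.log y ^ 3 ≤ (1 / (C + 1) * y ^ d) ^ 3 := pow_le_pow_left₀ hl0 hy 3
    have h3 : (y ^ d) ^ 3 = y ^ (3 * d) := by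
      rw [← Real.rpow_natCast, ← Real.rpow_mul hy0]
      congr 1
      push_cast
      ring
    have h4 : C * (1 / (C + 1)) ^ 3 ≤ 1 := by
      have h5 : 1 / (C + 1) ≤ 1 := by rw [div_le_one (by positivity)]; linarith
      have h6 : (1 / (C + 1)) ^ 3 ≤ 1 / (C + 1) := by
        calc (1 / (C + 1)) ^ 3 ≤ (1 / (C + 1)) ^ 1 := pow_le_pow_of_le_one (by positivity) h5 (by norm_num)
          _ = 1 / (C + 1) := pow_one _
      calc C * (1 / (C + 1)) ^ 3 ≤ C * (1 / (C + 1)) := mul_le_mul_of_nonneg_left h6 hC.le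
        _ ≤ 1 := by rw [mul_one_div, div_le_one (by positivity)]; linarith
    calc C * Real.log y ^ 3 ≤ C * (1 / (C + 1) * y ^ d) ^ 3 := mul_le_mul_of_nonneg_left h2 hC.le
      _ = (C * (1 / (C + 1)) ^ 3) * y ^ (3 * d) := by rw [mul_pow, h3]; ring
      _ ≤ 1 * y ^ (3 * d) := mul_le_mul_of_nonneg_right h4 (Real.rpow_nonneg hy0 _)
      _ = y ^ (3 * d) := one_mul _
  filter_upwards [Filter.eventually_ge_atTop x₀, hLt.eventually e1, hLt.eventually_ge_atTop 1] with x hx hx1 hx2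
  intro k hk hk2
  have hL0 : 0 < Real.log (x : ℝ) := by linarith
  refine (h x k hx hk hk2).trans ?_
  have h5 : Real.log (x : ℝ) ^ (-2 + 3 * d) = Real.log (x : ℝ) ^ (3 * d) / Real.log (x : ℝ) ^ 2 := by
    rw [Real.rpow_add hL0, Real.rpow_neg hL0.le, show (2 : ℝ) = ((2 : ℕ) : ℝ) by norm_num, Real.rpow_natCast]
    field_simp
  rw [h5]
  calc C * x * Real.log (Real.log x) ^ 3 / Real.log x ^ 2 = x * ((C * Real.log (Real.log x) ^ 3) / Real.log x ^ 2) := by
        ring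
    _ ≤ x * (Real.log (x : ℝ) ^ (3 * d) / Real.log (x : ℝ) ^ 2) := by
        apply mul_le_mul_of_nonneg_left _ (Nat.cast_nonneg _)
        exact div_le_div_of_nonneg_right hx1 (by positivity)

end Pool.Agent.PG50.PS34
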