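import Pool.Agent.PG50.RowCO_50
import Pool.Agent.PG50.Defs2

/-! Row CO2 of the project MP_28a32f_nt (helper55, double) -/

set_option autoImplicit false

open Finset

namespace Pool.Agent.PG50.CO255

open Nat (primeCounting)
open CO50

theorem image_PP (X : ℕ) : (PP X).image primeCounting = Icc 1 (primeCounting X) := by
  apply eq_of_subset_of_card_le
  · intro m hm
    rw [mem_image] at hm
    obtain ⟨p, hp, rfl⟩ := hm
    rw [mem_PP] at hp
    rw [mem_Icc]
    have := pi_lt (a := 0) hp.2.pos hp.2
    exact ⟨by omega, Nat.monotone_primeCounting hp.1⟩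
  · rw [card_image_of_injOn, Nat.card_Icc, Nat.add_sub_cancel]
    · exact (card_primes X).ge
    · intro p hp q hq h
      rw [mem_coe, mem_PP] at hp hq
      exact pi_inj hp.2 hq.2 h

/-- the primes of even index at least `4` -/
def EE (X : ℕ) : Finset ℕ := (PP X).filter (fun p => Even (primeCounting p) ∧ 4 ≤ primeCounting p)

theorem card_EE (X : ℕ) : primeCounting X ≤ 2 * (EE X).card + 4 := by
  have h1 : (range (primeCounting X / 2 - 1)).image (fun i => 2 * i + 4) ⊆ (EE X).image primeCounting := by
    intro m hm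
    rw [mem_image] at hm
    obtain ⟨i, hi, rfl⟩ := hm
    rw [mem_range] at hi
    have h2 : 2 * i + 4 ∈ (PP X).image primeCounting := by
      rw [image_PP, mem_Icc]
      omega
    rw [mem_image] at h2 ⊢
    obtain ⟨p, hp, h3⟩ := h2
    refine ⟨p, ?_, h3⟩
    unfold EE
    rw [mem_filter]
    refine ⟨hp, ?_, by omega⟩
    rw [h3]
    exact ⟨i + 2, by ring⟩
  have h4 := card_le_card h1
  rw [card_image_of_injective _ (fun a b h => by simpa using h), card_range] at h4
  have h5 := card_image_le (s := EE X) (f := primeCounting)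
  omega

/-- the primes of even index without a prime in the next `H` places -/
def QQ (X H : ℕ) : Finset ℕ := (EE X).filter (fun p => ∀ h ∈ Icc 1 H, ¬ (p + h).Prime)

theorem card_QQ (X H : ℕ) : (EE X).card ≤ (QQ X H).card + ∑ h ∈ Icc 1 H, P2 X h := by
  have h1 : EE X ⊆ QQ X H ∪ (Icc 1 H).biUnion (fun h => (Icc 1 X).filter (fun n => n.Prime ∧ (n + h).Prime)) := by
    intro p hp
    rw [mem_union]
    by_cases h2 : ∀ h ∈ Icc 1 H, ¬ (p + h).Prime
    · left
      unfold QQ
      exact mem_filter.2 ⟨hp, h2⟩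
    · right
      push Not at h2
      obtain ⟨h, hh, h3⟩ := h2
      unfold EE at hp
      rw [mem_filter, mem_PP] at hp
      rw [mem_biUnion]
      refine ⟨h, hh, ?_⟩
      rw [mem_filter, mem_Icc]
      exact ⟨⟨hp.1.2.pos, hp.1.1⟩, hp.1.2, h3⟩
  refine (card_le_card h1).trans ((card_union_le _ _).trans ?_)
  exact Nat.add_le_add_left card_biUnion_le _

theorem pi_const {X H p s : ℕ} (hp : p ∈ QQ X H) (hs : s ≤ H) : primeCounting (p + s) = primeCounting p := by
  rcases last_prime p s with h | ⟨q, h1, h2, h3, _⟩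
  · exact h
  · exfalso
    unfold QQ at hp
    rw [mem_filter] at hp
    have h5 := hp.2 (q - p) (mem_Icc.2 ⟨by omega, by omega⟩)
    rw [show p + (q - p) = q by omega] at h5
    exact h5 h1

/-- the windows -/
def WW (X H K : ℕ) : Finset ℕ := (QQ X H ×ˢ range (H - K)).image (fun a => a.1 + a.2)

theorem card_WW (X H K : ℕ) : (WW X H K).card = (QQ X H).card * (H - K) := by
  unfold WW
  rw [card_image_of_injOn, card_product, card_range]
  have key : ∀ p q i j : ℕ, p ∈ QQ X H → q ∈ QQ X H → i < H - K → j < H - K → p + i = q + j → p ≤ q := by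
    intro p q i j hp hq hi hj h
    by_contra h1
    have h2 : q < p := by omega
    have h3 := hp
    unfold QQ EE at h3
    rw [mem_filter, mem_filter, mem_PP] at h3
    unfold QQ at hq
    rw [mem_filter] at hq
    have h5 := hq.2 (p - q) (mem_Icc.2 ⟨by omega, by omega⟩)
    rw [show q + (p - q) = p by omega] at h5
    exact h5 h3.1.1.2
  rintro ⟨p, i⟩ ha ⟨q, j⟩ hb h
  rw [mem_coe, mem_product, mem_range] at ha hb
  simp only at ha hb h
  have h1 := key p q i j ha.1 hb.1 ha.2 hb.2 h
  have h2 := key q p j i hb.1 ha.1 hb.2 ha.2 h.symm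
  have h3 : p = q := le_antisymm h1 h2
  subst h3
  have h4 : i = j := by omega
  rw [h4]

theorem not_prime_even {m : ℕ} (h1 : Even m) (h2 : 4 ≤ m) : ¬ m.Prime := by
  intro h
  have := h.eq_one_or_self_of_dvd 2 h1.two_dvd
  omega

theorem WW_sub (X H K J : ℕ) (hK : K ≤ H) : WW X H K ⊆ good2 (X + H) K J ∪
    ((PP (X + H + J)).filter (fun p => (primeCounting p).Prime)).biUnion (fun q => Ico (q - J) q) := by
  classical
  intro n hn
  unfold WW at hn
  rw [mem_image] at hn
  obtain ⟨⟨p, i⟩, ha, rfl⟩ := hn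
  rw [mem_product, mem_range] at ha
  simp only at ha
  obtain ⟨hp, hi⟩ := ha
  have hp2 := hp
  unfold QQ EE at hp2
  rw [mem_filter, mem_filter, mem_PP] at hp2
  obtain ⟨⟨⟨hpX, hpp⟩, hev, h4⟩, _⟩ := hp2
  have hnp : primeCounting (p + i) = primeCounting p := pi_const hp (by omega)
  rw [mem_union]
  by_cases h : ∀ j ≤ J, ¬ (primeCounting (p + i + j)).Prime
  · left
    unfold good2
    rw [mem_filter, mem_Icc]
    refine ⟨⟨by have := hpp.pos; show 1 ≤ p + i; omega, by show p + i ≤ X + H; omega⟩, fun j hj => ?_, h⟩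
    show primeCounting (p + i + j) = primeCounting (p + i)
    rw [hnp, add_assoc]
    exact pi_const hp (by omega)
  · right
    push Not at h
    obtain ⟨j, hj, h5⟩ := h
    rcases last_prime (p + i) j with h6 | ⟨q, h6, h7, h8, h9⟩
    · exfalso
      rw [h6, hnp] at h5
      exact not_prime_even hev h4 h5
    · rw [mem_biUnion]
      refine ⟨q, ?_, ?_⟩
      · rw [mem_filter, mem_PP]
        refine ⟨⟨by omega, h6⟩, ?_⟩
        rw [h9]
        exact h5
      · rw [mem_Ico]
        show q - J ≤ p + i ∧ p + i < q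
        omega

theorem rowCO2 : CO2 := by
  classical
  intro X H K J hK
  have h1 := card_EE X
  have h2 := card_QQ X H
  have h3 := card_WW X H K
  have h4 := (card_le_card (WW_sub X H K J hK)).trans (card_union_le _ _)
  have h5 : (((PP (X + H + J)).filter (fun p => (primeCounting p).Prime)).biUnion (fun q => Ico (q - J) q)).card ≤
      J * primeCounting (primeCounting (X + H + J)) := by
    refine card_biUnion_le.trans ?_
    have h6 : ∀ q ∈ (PP (X + H + J)).filter (fun p => (primeCounting p).Prime), (Ico (q - J) q).card ≤ J := by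
      intro q _
      rw [Nat.card_Ico]
      omega
    refine (sum_le_card_nsmul _ _ _ h6).trans ?_
    rw [smul_eq_mul, mul_comm]
    exact Nat.mul_le_mul_left _ (card_Q _)
  set G := (good2 (X + H) K J).card
  set Z := J * primeCounting (primeCounting (X + H + J))
  set S := ∑ h ∈ Icc 1 H, P2 X h
  set Q := (QQ X H).card
  set E := (EE X).card
  have h7 : Q * (H - K) ≤ G + Z := by omega
  calc (H - K) * primeCounting X ≤ (H - K) * (2 * (Q + S) + 4) := Nat.mul_le_mul_left _ (by omega)
    _ = 2 * (Q * (H - K)) + 2 * (H - K) * (2 + S) := by ring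
    _ ≤ 2 * (G + Z) + 2 * (H - K) * (2 + S) := by omega

end Pool.Agent.PG50.CO255
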