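import Pool.Agent.PG50.Defs

/-! Row CO of the project MP_28a32f_nt -/

set_option autoImplicit false

open Finset

namespace Pool.Agent.PG50.CO50

open Nat (primeCounting)

theorem pi_succ (n : ℕ) : primeCounting (n + 1) =
    primeCounting n + if (n + 1).Prime then 1 else 0 := by
  unfold Nat.primeCounting Nat.primeCounting'
  rw [Nat.count_succ]

theorem pi_lt {a p : ℕ} (h : a < p) (hp : p.Prime) : primeCounting a < primeCounting p := by
  obtain ⟨k, rfl⟩ : ∃ k, p = k + 1 := ⟨p - 1, by omega⟩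
  rw [pi_succ, if_pos hp]
  have := Nat.monotone_primeCounting (show a ≤ k by omega)
  omega

theorem pi_inj {p q : ℕ} (hp : p.Prime) (hq : q.Prime) (h : primeCounting p = primeCounting q) :
    p = q := by
  rcases lt_trichotomy p q with h1 | h1 | h1
  · have := pi_lt h1 hq; omega
  · exact h1
  · have := pi_lt h1 hp; omega

theorem last_prime (n j : ℕ) : primeCounting (n + j) = primeCounting n ∨
    ∃ p, p.Prime ∧ n < p ∧ p ≤ n + j ∧ primeCounting p = primeCounting (n + j) := by
  induction j with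
  | zero => left; rfl
  | succ j ih =>
    by_cases h : (n + j + 1).Prime
    · right
      exact ⟨n + j + 1, h, by omega, by omega, rfl⟩
    · have e : primeCounting (n + (j + 1)) = primeCounting (n + j) := by
        rw [← add_assoc, pi_succ, if_neg h, add_zero]
      rw [e]
      rcases ih with h1 | ⟨p, h1, h2, h3, h4⟩
      · left; exact h1
      · right; exact ⟨p, h1, h2, by omega, h4⟩

theorem first_prime (n j : ℕ) : primeCounting (n + j) = primeCounting n ∨
    ∃ p, p.Prime ∧ n < p ∧ p ≤ n + j ∧ primeCounting p = primeCounting n + 1 := by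
  induction j with
  | zero => left; rfl
  | succ j ih =>
    rcases ih with h1 | ⟨p, h1, h2, h3, h4⟩
    · by_cases h : (n + j + 1).Prime
      · right
        refine ⟨n + j + 1, h, by omega, by omega, ?_⟩
        rw [pi_succ, if_pos h, h1]
      · left
        rw [← add_assoc, pi_succ, if_neg h, add_zero, h1]
    · right; exact ⟨p, h1, h2, by omega, h4⟩

theorem card_primes (Y : ℕ) : ((Icc 1 Y).filter Nat.Prime).card = primeCounting Y := by
  have h : (Icc 1 Y).filter Nat.Prime = (range (Y + 1)).filter Nat.Prime := by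
    ext p
    rw [mem_filter, mem_filter, mem_Icc, mem_range]
    constructor
    · rintro ⟨⟨_, h⟩, hp⟩; exact ⟨by omega, hp⟩
    · rintro ⟨h, hp⟩; exact ⟨⟨hp.one_lt.le, by omega⟩, hp⟩
  rw [h]
  unfold Nat.primeCounting Nat.primeCounting'
  rw [Nat.count_eq_card_filter_range]

/-- the primes up to `Y` -/
def PP (Y : ℕ) : Finset ℕ := (Icc 1 Y).filter Nat.Prime

theorem mem_PP {Y p : ℕ} : p ∈ PP Y ↔ p ≤ Y ∧ p.Prime := by
  unfold PP
  rw [mem_filter, mem_Icc]
  constructor
  · rintro ⟨⟨_, h⟩, hp⟩; exact ⟨h, hp⟩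
  · rintro ⟨h, hp⟩; exact ⟨⟨hp.one_lt.le, h⟩, hp⟩

/-- the number of primes in `(n, n + H]` -/
def NN (X H n : ℕ) : ℕ := ((PP (X + H)).filter (fun p => n < p ∧ p ≤ n + H)).card

theorem card_window (X H p : ℕ) :
    ((Icc 1 X).filter (fun n => n < p ∧ p ≤ n + H)).card ≤ H := by
  have h : (Icc 1 X).filter (fun n => n < p ∧ p ≤ n + H) ⊆ Ico (p - H) p := by
    intro n hn
    rw [mem_filter, mem_Icc] at hn
    rw [mem_Ico]
    omega
  refine (card_le_card h).trans ?_
  rw [Nat.card_Ico]
  omega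

theorem card_window_eq (X H p : ℕ) (h1 : H < p) (h2 : p ≤ X) :
    ((Icc 1 X).filter (fun n => n < p ∧ p ≤ n + H)).card = H := by
  have h : (Icc 1 X).filter (fun n => n < p ∧ p ≤ n + H) = Ico (p - H) p := by
    ext n
    rw [mem_filter, mem_Icc, mem_Ico]
    omega
  rw [h, Nat.card_Ico]
  omega

theorem sum_NN (X H : ℕ) :
    H * (primeCounting X - primeCounting H) ≤ ∑ n ∈ Icc 1 X, NN X H n := by
  have e1 : ∑ n ∈ Icc 1 X, NN X H n =
      ∑ p ∈ PP (X + H), ((Icc 1 X).filter (fun n => n < p ∧ p ≤ n + H)).card := by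
    unfold NN
    simp_rw [card_filter]
    rw [sum_comm]
  rw [e1]
  rcases le_total X H with hXH | hXH
  · have := Nat.monotone_primeCounting hXH
    rw [Nat.sub_eq_zero_of_le this, mul_zero]
    exact Nat.zero_le _
  · have hsub : (PP X) \ (PP H) ⊆ PP (X + H) := by
      intro p hp
      rw [mem_sdiff, mem_PP, mem_PP] at hp
      rw [mem_PP]
      exact ⟨by omega, hp.1.2⟩
    refine le_trans ?_ (sum_le_sum_of_subset hsub)
    have e2 : ∀ p ∈ (PP X) \ (PP H),
        ((Icc 1 X).filter (fun n => n < p ∧ p ≤ n + H)).card = H := by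
      intro p hp
      rw [mem_sdiff, mem_PP, mem_PP] at hp
      have h1 : ¬ p ≤ H := fun h => hp.2 ⟨h, hp.1.2⟩
      exact card_window_eq X H p (by omega) hp.1.1
    rw [sum_congr rfl e2, sum_const, smul_eq_mul, mul_comm]
    apply Nat.mul_le_mul_right
    have hPH : PP H ⊆ PP X := by
      intro p hp
      rw [mem_PP] at hp ⊢
      exact ⟨by omega, hp.2⟩
    rw [card_sdiff_of_subset hPH]
    unfold PP
    rw [card_primes, card_primes]

/-- close pairs of primes -/
def DD (Y H : ℕ) : Finset (ℕ × ℕ) :=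
  (PP Y ×ˢ PP Y).filter (fun x => x.1 ≤ x.2 + H ∧ x.2 ≤ x.1 + H)

theorem card_DD (Y H : ℕ) :
    (DD Y H).card ≤ primeCounting Y + 2 * ∑ h ∈ Icc 1 H, P2 Y h := by
  have hsub : DD Y H ⊆ (PP Y).image (fun p => (p, p)) ∪
      ((Icc 1 H).biUnion (fun h => ((Icc 1 Y).filter
        (fun n => n.Prime ∧ (n + h).Prime)).image (fun p => (p, p + h))) ∪
      (Icc 1 H).biUnion (fun h => ((Icc 1 Y).filter
        (fun n => n.Prime ∧ (n + h).Prime)).image (fun p => (p + h, p)))) := by
    rintro ⟨p, q⟩ hx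
    unfold DD at hx
    rw [mem_filter, mem_product, mem_PP, mem_PP] at hx
    obtain ⟨⟨⟨hp1, hp⟩, hq1, hq⟩, h1, h2⟩ := hx
    simp only at hp1 hp hq1 hq h1 h2
    rw [mem_union, mem_union]
    rcases lt_trichotomy p q with h | h | h
    · right; left
      rw [mem_biUnion]
      refine ⟨q - p, by rw [mem_Icc]; omega, ?_⟩
      rw [mem_image]
      refine ⟨p, ?_, ?_⟩
      · rw [mem_filter, mem_Icc]
        refine ⟨⟨hp.one_lt.le, hp1⟩, hp, ?_⟩
        rw [show p + (q - p) = q by omega]; exact hq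
      · rw [show p + (q - p) = q by omega]
    · left
      rw [mem_image]
      exact ⟨p, mem_PP.2 ⟨hp1, hp⟩, by rw [h]⟩
    · right; right
      rw [mem_biUnion]
      refine ⟨p - q, by rw [mem_Icc]; omega, ?_⟩
      rw [mem_image]
      refine ⟨q, ?_, ?_⟩
      · rw [mem_filter, mem_Icc]
        refine ⟨⟨hq.one_lt.le, hq1⟩, hq, ?_⟩
        rw [show q + (p - q) = p by omega]; exact hp
      · rw [show q + (p - q) = p by omega]
  refine (card_le_card hsub).trans ((card_union_le _ _).trans ?_)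
  have h1 : ((PP Y).image (fun p => (p, p))).card ≤ primeCounting Y := by
    refine card_image_le.trans ?_
    unfold PP
    rw [card_primes]
  have h2 : ((Icc 1 H).biUnion (fun h => ((Icc 1 Y).filter
        (fun n => n.Prime ∧ (n + h).Prime)).image (fun p => (p, p + h)))).card ≤
      ∑ h ∈ Icc 1 H, P2 Y h :=
    card_biUnion_le.trans (sum_le_sum fun h _ => card_image_le)
  have h3 : ((Icc 1 H).biUnion (fun h => ((Icc 1 Y).filter
        (fun n => n.Prime ∧ (n + h).Prime)).image (fun p => (p + h, p)))).card ≤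
      ∑ h ∈ Icc 1 H, P2 Y h :=
    card_biUnion_le.trans (sum_le_sum fun h _ => card_image_le)
  have h4 := card_union_le ((Icc 1 H).biUnion (fun h => ((Icc 1 Y).filter
        (fun n => n.Prime ∧ (n + h).Prime)).image (fun p => (p, p + h))))
      ((Icc 1 H).biUnion (fun h => ((Icc 1 Y).filter
        (fun n => n.Prime ∧ (n + h).Prime)).image (fun p => (p + h, p))))
  omega

theorem sum_NN_sq (X H : ℕ) :
    ∑ n ∈ Icc 1 X, NN X H n ^ 2 ≤
      H * primeCounting (X + H) + 2 * H * ∑ h ∈ Icc 1 H, P2 (X + H) h := by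
  have e1 : ∀ n, NN X H n ^ 2 = ((PP (X + H) ×ˢ PP (X + H)).filter
      (fun x => (n < x.1 ∧ x.1 ≤ n + H) ∧ (n < x.2 ∧ x.2 ≤ n + H))).card := by
    intro n
    unfold NN
    rw [sq, ← card_product]
    congr 1
    ext x
    simp only [mem_product, mem_filter]
    tauto
  have e2 : ∑ n ∈ Icc 1 X, NN X H n ^ 2 = ∑ x ∈ PP (X + H) ×ˢ PP (X + H),
      ((Icc 1 X).filter (fun n => (n < x.1 ∧ x.1 ≤ n + H) ∧ (n < x.2 ∧ x.2 ≤ n + H))).card := by
    simp_rw [e1, card_filter]
    rw [sum_comm]
  rw [e2]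
  have e3 : ∀ x ∈ PP (X + H) ×ˢ PP (X + H),
      ((Icc 1 X).filter (fun n => (n < x.1 ∧ x.1 ≤ n + H) ∧ (n < x.2 ∧ x.2 ≤ n + H))).card ≤
      if (x.1 ≤ x.2 + H ∧ x.2 ≤ x.1 + H) then H else 0 := by
    intro x _
    split_ifs with h
    · refine le_trans (card_le_card ?_) (card_window X H x.1)
      intro n hn
      rw [mem_filter] at hn ⊢
      exact ⟨hn.1, hn.2.1⟩
    · rw [Nat.le_zero, card_eq_zero, filter_eq_empty_iff]
      rintro n _ ⟨⟨h1, h2⟩, h3, h4⟩
      exact h ⟨by omega, by omega⟩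
  refine (sum_le_sum e3).trans ?_
  rw [← sum_filter, sum_const, smul_eq_mul]
  have h := card_DD (X + H) H
  unfold DD at h
  calc _ ≤ (primeCounting (X + H) + 2 * ∑ h ∈ Icc 1 H, P2 (X + H) h) * H :=
        Nat.mul_le_mul_right _ h
    _ = _ := by ring

theorem card_Q (Y : ℕ) : ((PP Y).filter (fun p => (primeCounting p).Prime)).card ≤
    primeCounting (primeCounting Y) := by
  rw [← card_primes (primeCounting Y)]
  apply card_le_card_of_injOn primeCounting
  · intro p hp
    rw [mem_coe, mem_filter, mem_PP] at hp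
    rw [mem_coe, mem_filter, mem_Icc]
    exact ⟨⟨hp.2.one_lt.le, Nat.monotone_primeCounting hp.1.1⟩, hp.2⟩
  · intro p hp q hq h
    rw [mem_coe, mem_filter, mem_PP] at hp hq
    exact pi_inj hp.1.2 hq.1.2 h

theorem card_Q1 (Y : ℕ) : ((PP Y).filter (fun p => (primeCounting p - 1).Prime)).card ≤
    primeCounting (primeCounting Y) := by
  rw [← card_primes (primeCounting Y)]
  apply card_le_card_of_injOn (fun p => primeCounting p - 1)
  · intro p hp
    rw [mem_coe, mem_filter, mem_PP] at hp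
    rw [mem_coe, mem_filter, mem_Icc]
    have := Nat.monotone_primeCounting hp.1.1
    exact ⟨⟨hp.2.one_lt.le, by show primeCounting p - 1 ≤ _; omega⟩, hp.2⟩
  · intro p hp q hq h
    rw [mem_coe, mem_filter, mem_PP] at hp hq
    have h1 := hp.2.one_lt
    have h2 := hq.2.one_lt
    have h' : primeCounting p - 1 = primeCounting q - 1 := h
    exact pi_inj hp.1.2 hq.1.2 (by omega)

theorem card_A (X H J : ℕ) :
    ((Icc 1 X).filter (fun n => NN X H n ≠ 0)).card ≤
      (good X J).card + (H + J) * primeCounting (primeCounting (X + H + J)) := by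
  classical
  have hsub : (Icc 1 X).filter (fun n => NN X H n ≠ 0) ⊆ good X J ∪
      (((PP (X + H + J)).filter (fun p => (primeCounting p - 1).Prime)).biUnion
        (fun p => Ico (p - H) p) ∪
      ((PP (X + H + J)).filter (fun p => (primeCounting p).Prime)).biUnion
        (fun p => Ico (p - J) p)) := by
    intro n hn
    rw [mem_filter, mem_Icc] at hn
    obtain ⟨⟨hn1, hnX⟩, hN⟩ := hn
    rw [mem_union, mem_union]
    by_contra hcon
    push Not at hcon
    obtain ⟨h1, h2, h3⟩ := hcon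
    apply h1
    unfold good
    rw [mem_filter, mem_Icc]
    refine ⟨⟨hn1, hnX⟩, ?_⟩
    intro j hj hpr
    rcases last_prime n j with h | ⟨p, hp, h4, h5, h6⟩
    · rw [h] at hpr
      -- the next prime
      unfold NN at hN
      rw [Finset.card_ne_zero] at hN
      obtain ⟨q, hq⟩ := hN
      rw [mem_filter, mem_PP] at hq
      rcases first_prime n H with h7 | ⟨p, hp, h4, h5, h6⟩
      · have h8 := pi_lt hq.2.1 hq.1.2
        have h9 := Nat.monotone_primeCounting hq.2.2
        omega
      · apply h2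
        rw [mem_biUnion]
        refine ⟨p, ?_, ?_⟩
        · rw [mem_filter, mem_PP]
          refine ⟨⟨by omega, hp⟩, ?_⟩
          rw [h6, Nat.add_sub_cancel]
          exact hpr
        · rw [mem_Ico]; omega
    · apply h3
      rw [mem_biUnion]
      refine ⟨p, ?_, ?_⟩
      · rw [mem_filter, mem_PP]
        refine ⟨⟨by omega, hp⟩, ?_⟩
        rw [h6]; exact hpr
      · rw [mem_Ico]; omega
  have hb : ∀ (S : Finset ℕ) (K : ℕ), (S.biUnion (fun p => Ico (p - K) p)).card ≤ K * S.card := by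
    intro S K
    refine card_biUnion_le.trans ?_
    rw [mul_comm, ← smul_eq_mul, ← sum_const]
    apply sum_le_sum
    intro p _
    rw [Nat.card_Ico]
    omega
  refine (card_le_card hsub).trans ((card_union_le _ _).trans ?_)
  have h1 := card_union_le
    (((PP (X + H + J)).filter (fun p => (primeCounting p - 1).Prime)).biUnion
        (fun p => Ico (p - H) p))
    (((PP (X + H + J)).filter (fun p => (primeCounting p).Prime)).biUnion
        (fun p => Ico (p - J) p))
  have h2 := hb ((PP (X + H + J)).filter (fun p => (primeCounting p - 1).Prime)) H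
  have h3 := hb ((PP (X + H + J)).filter (fun p => (primeCounting p).Prime)) J
  have h4 := Nat.mul_le_mul_left H (card_Q1 (X + H + J))
  have h5 := Nat.mul_le_mul_left J (card_Q (X + H + J))
  rw [add_mul]
  omega

theorem rowCO : CO := by
  intro X H J _
  have h1 := sum_NN X H
  have h2 := sum_NN_sq X H
  have h3 := card_A X H J
  have e : ∑ n ∈ Icc 1 X, NN X H n = ∑ n ∈ (Icc 1 X).filter (fun n => NN X H n ≠ 0), NN X H n := by
    rw [sum_filter_ne_zero]
  have h4 : (∑ n ∈ (Icc 1 X).filter (fun n => NN X H n ≠ 0), NN X H n) ^ 2 ≤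
      ((Icc 1 X).filter (fun n => NN X H n ≠ 0)).card *
        ∑ n ∈ (Icc 1 X).filter (fun n => NN X H n ≠ 0), NN X H n ^ 2 :=
    sq_sum_le_card_mul_sum_sq
  have h5 : ∑ n ∈ (Icc 1 X).filter (fun n => NN X H n ≠ 0), NN X H n ^ 2 ≤
      ∑ n ∈ Icc 1 X, NN X H n ^ 2 :=
    sum_le_sum_of_subset (filter_subset _ _)
  calc (H * (primeCounting X - primeCounting H)) ^ 2
      ≤ (∑ n ∈ Icc 1 X, NN X H n) ^ 2 := Nat.pow_le_pow_left h1 2
    _ ≤ _ := by rw [e]; exact h4
    _ ≤ _ := Nat.mul_le_mul h3 (h5.trans h2)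

end Pool.Agent.PG50.CO50
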