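import Pool.Agent.PG50.Defs
import Pool.Agent.SPA.M20
import Pool.Agent.Helper64.Breadth.Mertens

/-!
# MP_28a32f_nt: row ME (helper55)
-/

set_option autoImplicit false

namespace Pool.Agent.PG50

open Finset

/-- row ME with the upper constant `1` -/
theorem meStrong : ∃ C : ℝ, 1 ≤ C ∧ ∀ z : ℕ, 3 ≤ z →
    Real.log (Real.log z) - C ≤ ∑ q ∈ (Icc 1 z).filter Nat.Prime, (1 : ℝ) / q ∧
    ∑ q ∈ (Icc 1 z).filter Nat.Prime, (1 : ℝ) / q ≤ Real.log (Real.log z) + C := by
  obtain ⟨C, hC0, hC⟩ := SPA.M20.sum_le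
  refine ⟨C + 1, by linarith, fun z hz => ⟨?_, ?_⟩⟩
  · have h1 := Helper64.Breadth.loglog_le hz
    have h3 : z.primesBelow ⊆ (Icc 1 z).filter Nat.Prime := by
      intro q hq
      have h4 := Nat.prime_of_mem_primesBelow hq
      have h5 := Nat.lt_of_mem_primesBelow hq
      rw [mem_filter, mem_Icc]
      exact ⟨⟨h4.pos, by omega⟩, h4⟩
    have h7 := sum_le_sum_of_subset_of_nonneg (f := fun q : ℕ => (1 : ℝ) / q) h3 (fun i _ _ => by positivity)
    linarith
  · have h1 := hC z hz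
    linarith

theorem loglog_nonneg {z : ℕ} (hz : 3 ≤ z) : 0 ≤ Real.log (Real.log z) := by
  have h1 : 1 ≤ Real.log z := by
    rw [Real.le_log_iff_exp_le (by exact_mod_cast (by omega : 0 < z))]
    have h5 := Real.exp_one_lt_d9
    have h6 : (3 : ℝ) ≤ z := by exact_mod_cast hz
    linarith
  exact Real.log_nonneg h1

theorem rowME : ME := by
  obtain ⟨C, _, hC⟩ := meStrong
  refine ⟨C, fun z hz => ?_⟩
  obtain ⟨h1, h2⟩ := hC z hz
  have h3 := loglog_nonneg hz
  exact ⟨h1, by linarith⟩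

end Pool.Agent.PG50
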